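import Mathlib
import Pool.Agent.TH525.AG.GMean

/-! The mean number of closed solutions of a family `x' = f s (t, x)` which increases with the
parameter `s` (semi-rotated families). -/

open Set MeasureTheory Topology Filter
open scoped ENNReal NNReal

namespace Pool.Agent.J4H90.LI

open Pool.Agent.TH525.PU Pool.Agent.TH525.AG

lemma mono_within {g g' : ℝ → ℝ} {r t : ℝ}
    (hd : ∀ x ∈ Icc r t, HasDerivWithinAt g (g' x) (Icc r t) x) (h : ∀ x ∈ Ioo r t, 0 ≤ g' x) :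
    MonotoneOn g (Icc r t) := by
  refine monotoneOn_of_deriv_nonneg (convex_Icc r t) (fun x hx => (hd x hx).continuousWithinAt)
    ?_ ?_
  · intro x hx
    rw [interior_Icc] at hx
    exact ((hd x (Ioo_subset_Icc_self hx)).hasDerivAt
      (Icc_mem_nhds hx.1 hx.2)).differentiableAt.differentiableWithinAt
  · intro x hx
    rw [interior_Icc] at hx
    rw [((hd x (Ioo_subset_Icc_self hx)).hasDerivAt (Icc_mem_nhds hx.1 hx.2)).deriv]
    exact h x hx

lemma push_nonneg {T K a b : ℝ} {D D' w : ℝ → ℝ} (ha : 0 ≤ a) (hb : b ≤ T)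
    (hd : ∀ t ∈ Icc 0 T, HasDerivWithinAt D (D' t) (Icc 0 T) t)
    (h : ∀ t ∈ Icc 0 T, w t - K * |D t| ≤ D' t) (hw : ∀ t ∈ Icc 0 T, 0 ≤ w t) (h0 : 0 ≤ D a) :
    ∀ t ∈ Icc a b, 0 ≤ D t := by
  intro t ht
  by_contra hcon
  push Not at hcon
  have hsub : Icc a t ⊆ Icc 0 T := Icc_subset_Icc ha (ht.2.trans hb)
  have hc : ContinuousOn D (Icc a t) := fun x hx =>
    ((hd x (hsub hx)).continuousWithinAt).mono hsub
  obtain ⟨r, hr, hr0, hrp⟩ := last_zero (h := fun x => - D x) ht.1 hc.neg (by simpa using h0)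
    (by simpa using hcon)
  have hsub' : Icc r t ⊆ Icc 0 T := (Icc_subset_Icc_left hr.1).trans hsub
  have hm := mono_within (g := fun x => Real.exp (-K * x) * D x)
    (g' := fun x => Real.exp (-K * x) * (D' x - K * D x)) (r := r) (t := t) (fun x hx => by
      have h1 : HasDerivWithinAt (fun x => Real.exp (-K * x)) (Real.exp (-K * x) * (-K * 1))
          (Icc r t) x := ((hasDerivAt_id x).const_mul (-K)).exp.hasDerivWithinAt
      refine (h1.mul ((hd x (hsub' hx)).mono hsub')).congr_deriv ?_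
      ring) (fun x hx => by
      have hx' : x ∈ Icc 0 T := hsub' (Ioo_subset_Icc_self hx)
      have h2 := h x hx'
      have h3 := hw x hx'
      have h4 : D x < 0 := by
        have := hrp x ⟨hx.1, hx.2.le⟩
        linarith
      rw [abs_of_neg h4] at h2
      have : 0 ≤ D' x - K * D x := by linarith
      positivity)
  have h5 := hm (left_mem_Icc.2 hr.2.le) (right_mem_Icc.2 hr.2.le) hr.2.le
  have h6 : D r = 0 := by linarith
  simp only [h6, mul_zero] at h5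
  have h7 := Real.exp_pos (-K * t)
  nlinarith

lemma push_pos {T K a b : ℝ} {D D' w : ℝ → ℝ} (ha : 0 ≤ a) (hab : a < b) (hb : b ≤ T)
    (hd : ∀ t ∈ Icc 0 T, HasDerivWithinAt D (D' t) (Icc 0 T) t)
    (h : ∀ t ∈ Icc 0 T, w t - K * |D t| ≤ D' t) (hw : ∀ t ∈ Icc 0 T, 0 ≤ w t) (h0 : 0 ≤ D a)
    (hwp : ∃ t ∈ Ioo a b, 0 < w t) : 0 < D b := by
  have hnn := push_nonneg ha hb hd h hw h0
  by_contra hcon
  have hDb : D b = 0 := le_antisymm (not_lt.1 hcon) (hnn b (right_mem_Icc.2 hab.le))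
  have hsub : Icc a b ⊆ Icc 0 T := Icc_subset_Icc ha hb
  have hm := mono_within (g := fun x => Real.exp (K * x) * D x)
    (g' := fun x => Real.exp (K * x) * (D' x + K * D x)) (r := a) (t := b) (fun x hx => by
      have h1 : HasDerivWithinAt (fun x => Real.exp (K * x)) (Real.exp (K * x) * (K * 1))
          (Icc a b) x := ((hasDerivAt_id x).const_mul K).exp.hasDerivWithinAt
      refine (h1.mul ((hd x (hsub hx)).mono hsub)).congr_deriv ?_
      ring) (fun x hx => by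
      have hx' : x ∈ Icc 0 T := hsub (Ioo_subset_Icc_self hx)
      have h2 := h x hx'
      have h3 := hw x hx'
      rw [abs_of_nonneg (hnn x (Ioo_subset_Icc_self hx))] at h2
      have : 0 ≤ D' x + K * D x := by linarith
      positivity)
  have hz : ∀ x ∈ Icc a b, D x = 0 := by
    intro x hx
    have h1 := hm hx (right_mem_Icc.2 hab.le) hx.2
    simp only [hDb, mul_zero] at h1
    have h2 := hnn x hx
    have h3 := Real.exp_pos (K * x)
    by_contra hne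
    have : 0 < D x := lt_of_le_of_ne h2 (Ne.symm hne)
    nlinarith
  obtain ⟨τ, hτ, hτp⟩ := hwp
  have hτ' : τ ∈ Icc 0 T := hsub (Ioo_subset_Icc_self hτ)
  have h1 := h τ hτ'
  rw [hz τ (Ioo_subset_Icc_self hτ), abs_zero, mul_zero, sub_zero] at h1
  have h2 : HasDerivAt D (D' τ) τ := ((hd τ hτ').mono hsub).hasDerivAt (Icc_mem_nhds hτ.1 hτ.2)
  have h3 : HasDerivAt D 0 τ := by
    refine (hasDerivAt_const τ (0 : ℝ)).congr_of_eventuallyEq ?_
    filter_upwards [Icc_mem_nhds hτ.1 hτ.2] with x hx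
    exact hz x hx
  have := h2.unique h3
  linarith

/-- a family which increases with the parameter -/
structure SemiRot (T : ℝ) (V : ℝ → Set ℝ) (P : Set ℝ) (f : ℝ → ℝ → ℝ → ℝ) (w : ℝ → ℝ)
    (h : ℝ → ℝ → ℝ) (c₁ c₂ : ℝ) : Prop where
  cont : ∀ s ∈ P, ContinuousOn (Function.uncurry (f s)) (Reg T V)
  lip : ∀ s ∈ P, LocLip T V (f s)
  wcont : ContinuousOn w (Icc 0 T)
  wnn : ∀ t ∈ Icc 0 T, 0 ≤ w t
  wpos : ∀ a b, 0 ≤ a → a < b → b ≤ T → ∃ t ∈ Ioo a b, 0 < w t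
  hcont : ContinuousOn (Function.uncurry h) (Reg T V)
  c1 : 0 < c₁
  c2 : 0 ≤ c₂
  mono : ∀ s ∈ P, ∀ s' ∈ P, s < s' → ∀ t ∈ Icc 0 T, ∀ x ∈ V t,
    c₁ * (s' - s) * w t ≤ f s' t x - f s t x
  var : ∀ s ∈ P, ∀ t ∈ Icc 0 T, ∀ x ∈ V t, ∀ y ∈ V t,
    |f s t x - f s t y| ≤ c₂ * w t * |h t x - h t y|

variable {T : ℝ} {V : ℝ → Set ℝ} {P : Set ℝ} {f : ℝ → ℝ → ℝ → ℝ} {w : ℝ → ℝ} {h : ℝ → ℝ → ℝ}
  {c₁ c₂ : ℝ}

lemma deriv0 {g : ℝ → ℝ → ℝ} {φ : ℝ → ℝ} (hφ : IsClosedIn T V g 0 φ) :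
    ∀ t ∈ Icc 0 T, HasDerivWithinAt φ (g t (φ t)) (Icc 0 T) t := by
  intro t ht
  have := hφ.deriv t ht
  rwa [add_zero] at this

/-- closed solutions of different members do not meet -/
theorem no_touch (hT : 0 < T) (H : SemiRot T V P f w h c₁ c₂) {s s' : ℝ} (hs : s ∈ P)
    (hs' : s' ∈ P) (hss : s < s') {φ ψ : ℝ → ℝ} (hφ : IsClosedIn T V (f s) 0 φ)
    (hψ : IsClosedIn T V (f s') 0 ψ) {t₀ : ℝ} (ht₀ : t₀ ∈ Icc 0 T) : φ t₀ ≠ ψ t₀ := by
  intro heq
  obtain ⟨K, hK⟩ := H.lip s hs φ ψ hφ.cont hψ.cont (fun t ht => ⟨hφ.mem t ht, hψ.mem t ht⟩)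
  set D : ℝ → ℝ := fun x => ψ x - φ x with hD
  set D' : ℝ → ℝ := fun x => f s' x (ψ x) - f s x (φ x) with hD'
  have hd : ∀ t ∈ Icc 0 T, HasDerivWithinAt D (D' t) (Icc 0 T) t := fun t ht =>
    (deriv0 hψ t ht).sub (deriv0 hφ t ht)
  have hin : ∀ t ∈ Icc 0 T, c₁ * (s' - s) * w t - K * |D t| ≤ D' t := by
    intro t ht
    have h1 := H.mono s hs s' hs' hss t ht (ψ t) (hψ.mem t ht)
    have h2 := (hK t ht).dist_le_mul (ψ t) right_mem_uIcc (φ t) left_mem_uIcc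
    rw [Real.dist_eq, Real.dist_eq] at h2
    have h3 := neg_abs_le (f s t (ψ t) - f s t (φ t))
    simp only [hD, hD']
    linarith
  have hc : 0 < c₁ * (s' - s) := mul_pos H.c1 (by linarith)
  have hwn : ∀ t ∈ Icc 0 T, 0 ≤ c₁ * (s' - s) * w t := fun t ht => mul_nonneg hc.le (H.wnn t ht)
  have hwp : ∀ a b, 0 ≤ a → a < b → b ≤ T → ∃ t ∈ Ioo a b, 0 < c₁ * (s' - s) * w t := by
    intro a b ha hab hb
    obtain ⟨t, ht, htp⟩ := H.wpos a b ha hab hb
    exact ⟨t, ht, mul_pos hc htp⟩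
  have hper : D 0 = D T := by simp only [hD]; rw [hφ.closed, hψ.closed]
  have hD0 : D t₀ = 0 := by simp only [hD]; linarith
  rcases ht₀.2.eq_or_lt with hT0 | hT0
  · have h1 : D 0 = 0 := by rw [hper, ← hT0]; exact hD0
    have h2 := push_pos le_rfl hT le_rfl hd hin hwn h1.ge (hwp 0 T le_rfl hT le_rfl)
    linarith
  · have h1 := push_pos ht₀.1 hT0 le_rfl hd hin hwn hD0.ge (hwp t₀ T ht₀.1 hT0 le_rfl)
    rcases ht₀.1.eq_or_lt with h00 | h00
    · rw [← h00] at hD0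
      linarith
    · have h2 := push_pos le_rfl h00 ht₀.2 hd hin hwn (by linarith : (0:ℝ) ≤ D 0)
        (hwp 0 t₀ le_rfl h00 ht₀.2)
      linarith

lemma no_touch' (hT : 0 < T) (H : SemiRot T V P f w h c₁ c₂) {s s' : ℝ} (hs : s ∈ P)
    (hs' : s' ∈ P) (hss : s ≠ s') {φ ψ : ℝ → ℝ} (hφ : IsClosedIn T V (f s) 0 φ)
    (hψ : IsClosedIn T V (f s') 0 ψ) {t₀ : ℝ} (ht₀ : t₀ ∈ Icc 0 T) : φ t₀ ≠ ψ t₀ := by
  rcases lt_or_gt_of_ne hss with h1 | h1
  · exact no_touch hT H hs hs' h1 hφ hψ ht₀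
  · exact (no_touch hT H hs' hs h1 hψ hφ ht₀).symm

theorem ordered' (hT : 0 < T) (H : SemiRot T V P f w h c₁ c₂) {s s' : ℝ} (hs : s ∈ P)
    (hs' : s' ∈ P) {φ ψ : ℝ → ℝ} (hφ : IsClosedIn T V (f s) 0 φ)
    (hψ : IsClosedIn T V (f s') 0 ψ) (h0 : φ 0 < ψ 0) : ∀ t ∈ Icc 0 T, φ t < ψ t := by
  by_cases hss : s = s'
  · subst hss
    exact ordered (H.lip s hs) hφ hψ h0
  · intro t ht
    by_contra hcon
    push Not at hcon
    have hc : ContinuousOn (fun x => ψ x - φ x) (Icc 0 t) :=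
      (hψ.cont.sub hφ.cont).mono (Icc_subset_Icc_right ht.2)
    obtain ⟨r, hr, hr0, -⟩ := first_zero (h := fun x => ψ x - φ x) ht.1 hc
      (by show (0:ℝ) < ψ 0 - φ 0; linarith) (by show ψ t - φ t ≤ (0:ℝ); linarith)
    exact no_touch' hT H hs hs' hss hφ hψ (t₀ := r) ⟨hr.1.le, hr.2.trans ht.2⟩ (by linarith)

lemma edist_param' (hT : 0 < T) (H : SemiRot T V P f w h c₁ c₂) {s s' : ℝ} (hs : s ∈ P)
    (hs' : s' ∈ P) {φ ψ : ℝ → ℝ} (hφ : IsClosedIn T V (f s) 0 φ)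
    (hψ : IsClosedIn T V (f s') 0 ψ) (hss : s < s') :
    ENNReal.ofReal (c₁ * ∫ t in (0:ℝ)..T, w t) * edist s s' ≤
      ENNReal.ofReal c₂ * ∫⁻ t in Icc 0 T, ENNReal.ofReal (w t) * edist (h t (φ t)) (h t (ψ t)) := by
  have h1 := mean_formula hT (H.cont s hs) hφ
  have h2 := mean_formula hT (H.cont s' hs') hψ
  rw [mul_zero, zero_eq_neg] at h1 h2
  have i1 : IntervalIntegrable (fun t => f s t (φ t)) volume 0 T :=
    ((hφ.contf (H.cont s hs)).mono (by rw [uIcc_of_le hT.le])).intervalIntegrable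
  have i2 : IntervalIntegrable (fun t => f s' t (ψ t)) volume 0 T :=
    ((hψ.contf (H.cont s' hs')).mono (by rw [uIcc_of_le hT.le])).intervalIntegrable
  have c3 : ContinuousOn (fun t => f s t (ψ t)) (Icc 0 T) := by
    have h1 : ContinuousOn (fun t => ((t, ψ t) : ℝ × ℝ)) (Icc 0 T) :=
      continuousOn_id.prodMk hψ.cont
    exact (H.cont s hs).comp h1 (fun t ht => ⟨ht, hψ.mem t ht⟩)
  have i3 : IntervalIntegrable (fun t => f s t (ψ t)) volume 0 T :=
    (c3.mono (by rw [uIcc_of_le hT.le])).intervalIntegrable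
  have iw : IntervalIntegrable w volume 0 T :=
    (H.wcont.mono (by rw [uIcc_of_le hT.le])).intervalIntegrable
  have h3 : c₁ * (s' - s) * (∫ t in (0:ℝ)..T, w t) ≤
      ∫ t in (0:ℝ)..T, (f s' t (ψ t) - f s t (ψ t)) := by
    rw [← intervalIntegral.integral_const_mul]
    refine intervalIntegral.integral_mono_on hT.le (iw.const_mul _) (i2.sub i3) fun t ht => ?_
    exact H.mono s hs s' hs' hss t ht (ψ t) (hψ.mem t ht)
  have h4 : ∫ t in (0:ℝ)..T, (f s' t (ψ t) - f s t (ψ t)) =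
      ∫ t in (0:ℝ)..T, (f s t (φ t) - f s t (ψ t)) := by
    rw [intervalIntegral.integral_sub i2 i3, intervalIntegral.integral_sub i1 i3, h1, h2]
  rw [h4] at h3
  have h5 : ENNReal.ofReal (∫ t in (0:ℝ)..T, (f s t (φ t) - f s t (ψ t))) ≤
      ∫⁻ t in Icc 0 T, ENNReal.ofReal c₂ * (ENNReal.ofReal (w t) *
        edist (h t (φ t)) (h t (ψ t))) := by
    rw [intervalIntegral.integral_of_le hT.le]
    refine (ENNReal.ofReal_le_ofReal (le_abs_self _)).trans ?_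
    rw [← Real.norm_eq_abs, ofReal_norm]
    refine (enorm_integral_le_lintegral_enorm _).trans ?_
    refine (lintegral_mono_set Ioc_subset_Icc_self).trans ?_
    refine setLIntegral_mono' measurableSet_Icc fun t ht => ?_
    have h6 := H.var s hs t ht (φ t) (hφ.mem t ht) (ψ t) (hψ.mem t ht)
    rw [← ofReal_norm, Real.norm_eq_abs, edist_dist, Real.dist_eq, ← ENNReal.ofReal_mul
      (H.wnn t ht), ← ENNReal.ofReal_mul H.c2]
    refine ENNReal.ofReal_le_ofReal (h6.trans_eq (by ring))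
  have h7 : ENNReal.ofReal (c₁ * ∫ t in (0:ℝ)..T, w t) * edist s s' =
      ENNReal.ofReal (c₁ * (s' - s) * (∫ t in (0:ℝ)..T, w t)) := by
    have hI : 0 ≤ ∫ t in (0:ℝ)..T, w t :=
      intervalIntegral.integral_nonneg hT.le fun t ht => H.wnn t ht
    rw [edist_comm, edist_dist, Real.dist_eq, abs_of_pos (by linarith : 0 < s' - s),
      ← ENNReal.ofReal_mul (mul_nonneg H.c1.le hI)]
    congr 1
    ring
  rw [h7]
  refine (ENNReal.ofReal_le_ofReal h3).trans (h5.trans (le_of_eq ?_))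
  rw [lintegral_const_mul' _ _ ENNReal.ofReal_ne_top]

lemma edist_param'' (hT : 0 < T) (H : SemiRot T V P f w h c₁ c₂) {s s' : ℝ} (hs : s ∈ P)
    (hs' : s' ∈ P) {φ ψ : ℝ → ℝ} (hφ : IsClosedIn T V (f s) 0 φ)
    (hψ : IsClosedIn T V (f s') 0 ψ) :
    ENNReal.ofReal (c₁ * ∫ t in (0:ℝ)..T, w t) * edist s s' ≤
      ENNReal.ofReal c₂ * ∫⁻ t in Icc 0 T, ENNReal.ofReal (w t) * edist (h t (φ t)) (h t (ψ t)) := by
  rcases lt_trichotomy s s' with h1 | h1 | h1
  · exact edist_param' hT H hs hs' hφ hψ h1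
  · rw [h1, edist_self, mul_zero]; exact zero_le
  · have := edist_param' hT H hs' hs hψ hφ h1
    rw [edist_comm]
    simpa only [edist_comm] using this

/-- **The mean theorem for families which increase with the parameter.** -/
theorem semi_mean (hT : 0 < T) (H : SemiRot T V P f w h c₁ c₂) :
    ∃ g : ℝ → ℝ≥0∞, Measurable g ∧
      (∀ s ∈ P, ((closedIn T V (f s) 0).encard : ℝ≥0∞) ≤ g s) ∧
      ENNReal.ofReal (c₁ * ∫ t in (0:ℝ)..T, w t) * ∫⁻ s, g s ≤
        ENNReal.ofReal c₂ * ∫⁻ t in Icc 0 T, ENNReal.ofReal (w t) *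
          eVariationOn (h t) (V t) := by
  classical
  set E : Set ℝ := {x | ∃ s ∈ P, ∃ φ, IsClosedIn T V (f s) 0 φ ∧ φ 0 = x} with hE
  have hex : ∀ x, ∃ p : ℝ × (ℝ → ℝ), x ∈ E →
      p.1 ∈ P ∧ IsClosedIn T V (f p.1) 0 p.2 ∧ p.2 0 = x := by
    intro x
    by_cases hx : x ∈ E
    · obtain ⟨s, hs, φ, h1, h2⟩ := hx
      exact ⟨(s, φ), fun _ => ⟨hs, h1, h2⟩⟩
    · exact ⟨(0, fun _ => 0), fun h => absurd h hx⟩
  choose Q hQ using hex
  obtain ⟨g, hgm, hg, hgi⟩ := majorant (fun x => (Q x).1) E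
  refine ⟨g, hgm, fun s hs => ?_, (mul_le_mul_right hgi _).trans ?_⟩
  · refine le_trans ?_ (hg s)
    refine ENat.toENNReal_le.2 ?_
    have h0 : (0:ℝ) ∈ Icc 0 T := left_mem_Icc.2 hT.le
    refine Set.encard_le_encard_of_injOn (f := fun h : Icc 0 T → ℝ => h ⟨0, h0⟩) ?_ ?_
    · rintro _ ⟨φ, hφ, rfl⟩
      have hx : φ 0 ∈ E := ⟨s, hs, φ, hφ, rfl⟩
      refine ⟨hx, ?_⟩
      have h1 := hQ (φ 0) hx
      by_contra hne
      exact no_touch' hT H h1.1 hs hne h1.2.1 hφ h0 h1.2.2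
    · rintro _ ⟨φ, hφ, rfl⟩ _ ⟨ψ, hψ, rfl⟩ he
      ext x
      exact eq_sol (H.lip s hs) hT hφ hψ he x.2
  · unfold eVariationOn
    rw [ENNReal.mul_iSup]
    refine iSup_le ?_
    rintro ⟨n, u, hu, us⟩
    simp only
    have hq : ∀ i, (Q (u i)).1 ∈ P ∧ IsClosedIn T V (f (Q (u i)).1) 0 (Q (u i)).2 ∧
        (Q (u i)).2 0 = u i := fun i => hQ (u i) (us i)
    have hcm : ∀ i, ContinuousOn (fun t => h t ((Q (u i)).2 t)) (Icc 0 T) := by
      intro i
      have h1 : ContinuousOn (fun t => ((t, (Q (u i)).2 t) : ℝ × ℝ)) (Icc 0 T) :=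
        continuousOn_id.prodMk (hq i).2.1.cont
      exact H.hcont.comp h1 (fun t ht => ⟨ht, (hq i).2.1.mem t ht⟩)
    have haem : ∀ i, AEMeasurable
        (fun t => ENNReal.ofReal (w t) * edist (h t ((Q (u (i+1))).2 t)) (h t ((Q (u i)).2 t)))
        (volume.restrict (Icc 0 T)) := by
      intro i
      have m1 : AEMeasurable (fun t => ENNReal.ofReal (w t)) (volume.restrict (Icc 0 T)) :=
        (ENNReal.continuous_ofReal.comp_continuousOn H.wcont).aemeasurable measurableSet_Icc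
      have m2 : AEMeasurable (fun t => edist (h t ((Q (u (i+1))).2 t)) (h t ((Q (u i)).2 t)))
          (volume.restrict (Icc 0 T)) :=
        (continuous_edist.comp_continuousOn ((hcm (i+1)).prodMk (hcm i))).aemeasurable
          measurableSet_Icc
      exact m1.mul m2
    calc ENNReal.ofReal (c₁ * ∫ t in (0:ℝ)..T, w t) *
          ∑ i ∈ Finset.range n, edist (Q (u (i+1))).1 (Q (u i)).1
        = ∑ i ∈ Finset.range n, ENNReal.ofReal (c₁ * ∫ t in (0:ℝ)..T, w t) *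
          edist (Q (u (i+1))).1 (Q (u i)).1 := Finset.mul_sum _ _ _
      _ ≤ ∑ i ∈ Finset.range n, ENNReal.ofReal c₂ *
          ∫⁻ t in Icc 0 T, ENNReal.ofReal (w t) *
            edist (h t ((Q (u (i+1))).2 t)) (h t ((Q (u i)).2 t)) :=
          Finset.sum_le_sum fun i _ =>
            edist_param'' hT H (hq (i+1)).1 (hq i).1 (hq (i+1)).2.1 (hq i).2.1
      _ = ENNReal.ofReal c₂ * ∫⁻ t in Icc 0 T, ∑ i ∈ Finset.range n,
          ENNReal.ofReal (w t) * edist (h t ((Q (u (i+1))).2 t)) (h t ((Q (u i)).2 t)) := by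
          rw [← Finset.mul_sum, lintegral_finsetSum' _ (fun i _ => haem i)]
      _ ≤ _ := by
          refine mul_le_mul_right ?_ _
          refine setLIntegral_mono_ae' measurableSet_Icc (ae_of_all _ fun t ht => ?_)
          rw [← Finset.mul_sum]
          refine mul_le_mul_right ?_ _
          refine eVariationOn.sum_le (f := h t) (s := V t) (u := fun i => (Q (u i)).2 t) ?_ ?_
          · refine monotone_nat_of_le_succ fun i => ?_
            rcases (hu (Nat.le_succ i)).eq_or_lt with h | h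
            · rw [h]
            · exact (ordered' hT H (hq i).1 (hq (i+1)).1 (hq i).2.1 (hq (i+1)).2.1
                (by rw [(hq i).2.2, (hq (i+1)).2.2]; exact h) t ht).le
          · intro i
            exact (hq i).2.1.mem t ht

end Pool.Agent.J4H90.LI
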