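import Mathlib
import Pool.Agent.TH525.AG.AngMean
import Pool.Agent.J4H90.LI.Semi

/-! The mean number of the closed orbits of nonlinear oscillators. -/

open Set MeasureTheory Topology Filter
open scoped ENNReal NNReal

namespace Pool.Agent.J4H90.LI

open Pool.Agent.TH525.PU hiding pt ang field
open Pool.Agent.TH525.AG

/-- the field of `u'' + u' (Q(u, u') + μ) + u = 0` -/
noncomputable def osc (Q : MvPolynomial (Fin 2) ℝ) (μ : ℝ) (p : ℝ × ℝ) : ℝ × ℝ :=
  (p.2, - p.1 - p.2 * (ev Q p + μ))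

/-- the components of the field with reversed time -/
noncomputable def oF : MvPolynomial (Fin 2) ℝ := - MvPolynomial.X 1

noncomputable def oG (Q : MvPolynomial (Fin 2) ℝ) (μ : ℝ) : MvPolynomial (Fin 2) ℝ :=
  MvPolynomial.X 0 + MvPolynomial.X 1 * (Q + MvPolynomial.C μ)

lemma ev_oF (p : ℝ × ℝ) : ev oF p = - p.2 := by simp [ev, oF]

lemma ev_oG (Q : MvPolynomial (Fin 2) ℝ) (μ : ℝ) (p : ℝ × ℝ) :
    ev (oG Q μ) p = p.1 + p.2 * (ev Q p + μ) := by simp [ev, oG]

lemma rad_o (Q : MvPolynomial (Fin 2) ℝ) (μ : ℝ) (p : ℝ × ℝ) :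
    rad oF (oG Q μ) p = p.2 ^ 2 * (ev Q p + μ) := by
  unfold rad; rw [ev_oF, ev_oG]; ring

lemma ang_o (Q : MvPolynomial (Fin 2) ℝ) (μ : ℝ) (p : ℝ × ℝ) :
    ang oF (oG Q μ) p = p.1 ^ 2 + p.1 * p.2 * (ev Q p + μ) + p.2 ^ 2 := by
  unfold ang; rw [ev_oF, ev_oG]; ring

lemma sc_o (Q : MvPolynomial (Fin 2) ℝ) (μ t x : ℝ) :
    sc oF (oG Q μ) t x = Real.sin t ^ 2 * ((ev Q (pt t x) + μ) /
      (1 + Real.sin t * Real.cos t * (ev Q (pt t x) + μ))) := by
  unfold sc
  rw [rad_o, ang_o]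
  set k := ev Q (pt t x) + μ
  have h1 : (pt t x).2 ^ 2 * k = Real.exp x ^ 2 * (Real.sin t ^ 2 * k) := by
    simp only [pt]; ring
  have h2 : (pt t x).1 ^ 2 + (pt t x).1 * (pt t x).2 * k + (pt t x).2 ^ 2 =
      Real.exp x ^ 2 * (1 + Real.sin t * Real.cos t * k) := by
    have := Real.sin_sq_add_cos_sq t
    simp only [pt]
    linear_combination Real.exp x ^ 2 * this
  rw [h1, h2, mul_div_mul_left _ _ (pow_ne_zero 2 (Real.exp_pos x).ne'), mul_div_assoc]

lemma sigma_le (t : ℝ) : |Real.sin t * Real.cos t| ≤ 1 / 2 := by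
  have h1 := Real.sin_sq_add_cos_sq t
  rw [abs_le]
  constructor
  · nlinarith [sq_nonneg (Real.sin t + Real.cos t)]
  · nlinarith [sq_nonneg (Real.sin t - Real.cos t)]

lemma den_bounds {σ k W : ℝ} (hσ : |σ| ≤ 1 / 2) (hk : |k| ≤ W) :
    1 - W / 2 ≤ 1 + σ * k ∧ 1 + σ * k ≤ 1 + W / 2 := by
  have h1 : |σ * k| ≤ 1 / 2 * W := by
    rw [abs_mul]
    exact mul_le_mul hσ hk (abs_nonneg _) (by norm_num)
  rw [abs_le] at h1
  constructor <;> linarith [h1.1, h1.2]

lemma frac_sub {σ k l : ℝ} (h1 : 1 + σ * k ≠ 0) (h2 : 1 + σ * l ≠ 0) :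
    l / (1 + σ * l) - k / (1 + σ * k) = (l - k) / ((1 + σ * k) * (1 + σ * l)) := by
  rw [div_sub_div _ _ h2 h1]
  congr 1 <;> ring

variable {Q : MvPolynomial (Fin 2) ℝ} {A : Set (ℝ × ℝ)} {m M : ℝ}

lemma k_le (hmM : ∀ p ∈ A, m ≤ ev Q p ∧ ev Q p ≤ M) {s : ℝ} (hs : s ∈ Icc (-M) (-m)) {p : ℝ × ℝ}
    (hp : p ∈ A) : |ev Q p + s| ≤ M - m := by
  have h := hmM p hp
  rw [abs_le]
  constructor
  · linarith [hs.1, h.1]
  · linarith [hs.2, h.2]

lemma ang_pos (h0 : (0 : ℝ × ℝ) ∉ A) (hmM : ∀ p ∈ A, m ≤ ev Q p ∧ ev Q p ≤ M) (hW : M - m < 2)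
    {s : ℝ} (hs : s ∈ Icc (-M) (-m)) : ∀ p ∈ A, 0 < ang oF (oG Q s) p := by
  intro p hp
  rw [ang_o]
  have hk := abs_le.1 (k_le hmM hs hp)
  have hp0 : 0 < p.1 ^ 2 + p.2 ^ 2 := by
    rcases (by positivity : (0:ℝ) ≤ p.1 ^ 2 + p.2 ^ 2).eq_or_lt with h | h
    · exfalso
      apply h0
      have h1 : p.1 = 0 := by nlinarith [sq_nonneg p.1, sq_nonneg p.2]
      have h2 : p.2 = 0 := by nlinarith [sq_nonneg p.1, sq_nonneg p.2]
      have : p = 0 := Prod.ext h1 h2
      rwa [this] at hp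
    · exact h
  set k := ev Q p + s
  have h3 : |p.1 * p.2 * k| ≤ (p.1 ^ 2 + p.2 ^ 2) / 2 * |k| := by
    rw [abs_mul]
    gcongr
    rw [abs_le]
    constructor
    · nlinarith [sq_nonneg (p.1 + p.2)]
    · nlinarith [sq_nonneg (p.1 - p.2)]
  have h4 : |k| < 2 := by
    rw [abs_lt]
    constructor <;> linarith [hk.1, hk.2]
  have h5 := neg_abs_le (p.1 * p.2 * k)
  nlinarith

lemma semiRot (hA : ∀ t, (ray A t).OrdConnected) (h0 : (0 : ℝ × ℝ) ∉ A)
    (hmM : ∀ p ∈ A, m ≤ ev Q p ∧ ev Q p ≤ M) (hle : m ≤ M) (hW : M - m < 2) :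
    SemiRot (2 * Real.pi) (reg A) (Icc (-M) (-m)) (fun s => sc oF (oG Q s))
      (fun t => Real.sin t ^ 2) (fun t x => ev Q (pt t x))
      (((1 + (M - m) / 2) ^ 2)⁻¹) (((1 - (M - m) / 2) ^ 2)⁻¹) where
  cont := fun s hs => sc_cont (ang_pos h0 hmM hW hs) _
  lip := fun s hs => locLip (reg_ord hA) (ang_pos h0 hmM hW hs) _
  wcont := (Real.continuous_sin.pow 2).continuousOn
  wnn := fun t _ => sq_nonneg _
  wpos := by
    intro a b _ hab _
    by_contra hcon
    push Not at hcon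
    -- `sin` vanishes on an interval
    have hz : ∀ t ∈ Ioo a b, Real.sin t = 0 := by
      intro t ht
      have h1 := hcon t ht
      have h2 := sq_nonneg (Real.sin t)
      exact pow_eq_zero_iff (two_ne_zero) |>.1 (le_antisymm h1 h2)
    have hmid : (a + b) / 2 ∈ Ioo a b := ⟨by linarith, by linarith⟩
    have h3 : HasDerivAt Real.sin 0 ((a + b) / 2) := by
      refine (hasDerivAt_const _ (0 : ℝ)).congr_of_eventuallyEq ?_
      filter_upwards [Ioo_mem_nhds hmid.1 hmid.2] with x hx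
      exact hz x hx
    have h4 := (Real.hasDerivAt_sin ((a + b) / 2)).unique h3
    have h5 := Real.sin_sq_add_cos_sq ((a + b) / 2)
    rw [h4, hz _ hmid] at h5
    norm_num at h5
  hcont := (ev_contDiff Q).continuous.continuousOn
  c1 := by
    have : 0 < 1 + (M - m) / 2 := by linarith
    positivity
  c2 := by positivity
  mono := by
    intro s hs s' hs' hss t _ x hx
    have hσ := sigma_le t
    obtain ⟨a1, a2⟩ := den_bounds hσ (k_le hmM hs (p := pt t x) hx)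
    obtain ⟨b1, b2⟩ := den_bounds hσ (k_le hmM hs' (p := pt t x) hx)
    simp only [sc_o]
    set σ := Real.sin t * Real.cos t
    set k := ev Q (pt t x) + s with hk
    set l := ev Q (pt t x) + s' with hl
    have hpos : 0 < 1 - (M - m) / 2 := by linarith
    have k1 : 0 < 1 + σ * k := by linarith
    have k2 : 0 < 1 + σ * l := by linarith
    rw [← mul_sub, frac_sub k1.ne' k2.ne']
    have h5 : l - k = s' - s := by rw [hk, hl]; ring
    rw [h5]
    have h6 : ((1 + (M - m) / 2) ^ 2)⁻¹ * (s' - s) ≤ (s' - s) / ((1 + σ * k) * (1 + σ * l)) := by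
      rw [inv_mul_eq_div]
      apply div_le_div_of_nonneg_left (by linarith) (by positivity)
      rw [pow_two]
      exact mul_le_mul a2 b2 k2.le (by linarith)
    calc ((1 + (M - m) / 2) ^ 2)⁻¹ * (s' - s) * Real.sin t ^ 2
        ≤ (s' - s) / ((1 + σ * k) * (1 + σ * l)) * Real.sin t ^ 2 := by gcongr
      _ = _ := by ring
  var := by
    intro s hs t _ x hx y hy
    have hσ := sigma_le t
    obtain ⟨a1, a2⟩ := den_bounds hσ (k_le hmM hs (p := pt t x) hx)
    obtain ⟨b1, b2⟩ := den_bounds hσ (k_le hmM hs (p := pt t y) hy)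
    simp only [sc_o]
    set σ := Real.sin t * Real.cos t
    set l := ev Q (pt t x) + s with hl
    set k := ev Q (pt t y) + s with hk
    have hpos : 0 < 1 - (M - m) / 2 := by linarith
    have k1 : 0 < 1 + σ * k := by linarith
    have k2 : 0 < 1 + σ * l := by linarith
    rw [← mul_sub, frac_sub k1.ne' k2.ne']
    have h5 : l - k = ev Q (pt t x) - ev Q (pt t y) := by rw [hk, hl]; ring
    rw [h5, abs_mul, abs_div, abs_of_nonneg (sq_nonneg (Real.sin t)),
      abs_of_pos (mul_pos k1 k2)]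
    have h6 : |ev Q (pt t x) - ev Q (pt t y)| / ((1 + σ * k) * (1 + σ * l)) ≤
        ((1 - (M - m) / 2) ^ 2)⁻¹ * |ev Q (pt t x) - ev Q (pt t y)| := by
      rw [inv_mul_eq_div]
      apply div_le_div_of_nonneg_left (abs_nonneg _) (by positivity)
      rw [pow_two]
      exact mul_le_mul b1 a1 hpos.le k1.le
    calc Real.sin t ^ 2 * (|ev Q (pt t x) - ev Q (pt t y)| / ((1 + σ * k) * (1 + σ * l)))
        ≤ Real.sin t ^ 2 * (((1 - (M - m) / 2) ^ 2)⁻¹ *
          |ev Q (pt t x) - ev Q (pt t y)|) := by gcongr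
      _ = _ := by ring

lemma int_pair_w {v : ℝ → ℝ≥0∞} {B : ℝ≥0∞} (hv : ∀ t, v t + v (t + Real.pi) ≤ B) :
    ∫⁻ t in Icc 0 (2 * Real.pi), ENNReal.ofReal (Real.sin t ^ 2) * v t ≤
      ENNReal.ofReal (Real.pi / 2) * B := by
  have hpi := Real.pi_pos
  set u : ℝ → ℝ≥0∞ := fun t => ENNReal.ofReal (Real.sin t ^ 2) * v t with hu
  have hu' : ∀ t, u t + u (t + Real.pi) ≤ ENNReal.ofReal (Real.sin t ^ 2) * B := by
    intro t
    simp only [hu]
    rw [Real.sin_add_pi, neg_sq, ← mul_add]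
    gcongr
    exact hv t
  have h1 : ∫⁻ t in Ico 0 (2 * Real.pi), u t =
      (∫⁻ t in Ico 0 Real.pi, u t) + ∫⁻ t in Ico Real.pi (2 * Real.pi), u t := by
    rw [← lintegral_union measurableSet_Ico, Ico_union_Ico_eq_Ico hpi.le (by linarith)]
    rw [Set.disjoint_left]
    intro x hx hx'
    exact absurd hx.2 (not_lt.2 hx'.1)
  have h2 : ∫⁻ t in Ico Real.pi (2 * Real.pi), u t = ∫⁻ t in Ico 0 Real.pi, u (t + Real.pi) := by
    rw [← lintegral_indicator measurableSet_Ico, ← lintegral_indicator measurableSet_Ico,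
      ← lintegral_add_right_eq_self _ Real.pi]
    congr 1
    ext t
    by_cases ht : t ∈ Ico 0 Real.pi
    · rw [indicator_of_mem ht, indicator_of_mem]
      exact ⟨by linarith [ht.1], by linarith [ht.2]⟩
    · rw [indicator_of_notMem ht, indicator_of_notMem]
      intro h
      exact ht ⟨by linarith [h.1], by linarith [h.2]⟩
  have h3 : ∫⁻ t in Ico 0 Real.pi, ENNReal.ofReal (Real.sin t ^ 2) = ENNReal.ofReal (Real.pi / 2) := by
    have hi : IntegrableOn (fun t => Real.sin t ^ 2) (Ioc 0 Real.pi) :=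
      Continuous.integrableOn_Ioc (by fun_prop)
    rw [setLIntegral_congr (Ico_ae_eq_Ioc (α := ℝ)),
      ← ofReal_integral_eq_lintegral_ofReal hi (ae_of_all _ fun t => sq_nonneg _),
      ← intervalIntegral.integral_of_le hpi.le, integral_sin_sq]
    congr 1
    simp
  rw [← setLIntegral_congr (Ico_ae_eq_Icc (α := ℝ)), h1, h2]
  calc _ ≤ ∫⁻ t in Ico 0 Real.pi, (u t + u (t + Real.pi)) := le_lintegral_add _ _
    _ ≤ ∫⁻ t in Ico 0 Real.pi, ENNReal.ofReal (Real.sin t ^ 2) * B := lintegral_mono fun t => hu' t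
    _ = _ := by
        rw [lintegral_mul_const _ (by fun_prop), h3]

lemma pair_Q {n : ℕ} (hQ : Q.totalDegree ≤ n) (hA : ∀ t, (ray A t).OrdConnected)
    (hmM : ∀ p ∈ A, m ≤ ev Q p ∧ ev Q p ≤ M) (h0 : (0 : ℝ × ℝ) ∉ A) (t : ℝ) :
    eVariationOn (fun x => ev Q (pt t x)) (reg A t) +
      eVariationOn (fun x => ev Q (pt (t + Real.pi) x)) (reg A (t + Real.pi)) ≤
      n * ENNReal.ofReal (M - m) := by
  have ef : ∀ p, ev (rigidX Q 0) p = - p.2 + p.1 * ev Q p := by
    intro p; unfold ev; rw [eval_rigidX, add_zero]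
  have eg : ∀ p, ev (rigidY Q 0) p = p.1 + p.2 * ev Q p := by
    intro p; unfold ev; rw [eval_rigidY, add_zero]
  have ea : ∀ p, ang (rigidX Q 0) (rigidY Q 0) p = p.1 ^ 2 + p.2 ^ 2 := by
    intro p; unfold ang; rw [ef, eg]; ring
  have er : ∀ p, rad (rigidX Q 0) (rigidY Q 0) p = (p.1 ^ 2 + p.2 ^ 2) * ev Q p := by
    intro p; unfold rad; rw [ef, eg]; ring
  have hr : ∀ p : ℝ × ℝ, p ≠ 0 → rad (rigidX Q 0) (rigidY Q 0) p / ang (rigidX Q 0) (rigidY Q 0) p =
      ev Q p := by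
    intro p hp
    rw [ea, er, mul_div_cancel_left₀]
    intro h
    apply hp
    have h1 : p.1 = 0 := by nlinarith [sq_nonneg p.1, sq_nonneg p.2]
    have h2 : p.2 = 0 := by nlinarith [sq_nonneg p.1, sq_nonneg p.2]
    exact Prod.ext h1 h2
  have hpt : ∀ t x, pt t x ≠ 0 := by
    intro t x h
    have h1 := congrArg Prod.fst h
    have h2 := congrArg Prod.snd h
    simp only [pt, Prod.fst_zero, Prod.snd_zero, mul_eq_zero, (Real.exp_pos x).ne',
      false_or] at h1 h2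
    have := Real.sin_sq_add_cos_sq t
    rw [h1, h2] at this
    norm_num at this
  have hsc : ∀ t, sc (rigidX Q 0) (rigidY Q 0) t = fun x => ev Q (pt t x) := by
    intro t
    ext x
    exact hr _ (hpt t x)
  have h1 := pair_gen (f := rigidX Q 0) (g := rigidY Q 0) hA (t := t) (p := rpoly Q t) (q := 1)
    (N := n) (rpoly_deg Q hQ t) (by simp) (fun r hr0 hrA => ⟨by simp, by
      rw [hr _ (fun h => h0 (h ▸ hrA)), rpoly_eval, Polynomial.eval_one, div_one]
      rfl⟩) (m := m) (M := M) (fun p hp => by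
      rw [hr p (fun h => h0 (h ▸ hp))]
      exact hmM p hp)
  rw [hsc, hsc] at h1
  exact h1

/-- closed orbits with time reversed -/
lemma reverse {X Y : ℝ × ℝ → ℝ × ℝ} (h : ∀ p, Y p = - X p) (A : Set (ℝ × ℝ)) :
    closedOrbitsIn X A ⊆ closedOrbitsIn Y A := by
  rintro C ⟨⟨γ, T, hT, hγ, hper, ⟨a, b, hab⟩, rfl⟩, hsub⟩
  refine ⟨⟨fun t => γ (-t), T, hT, fun t => ?_, fun t => ?_, ⟨-a, -b, by simpa using hab⟩, ?_⟩,
    hsub⟩
  · have h1 := (hγ (-t)).scomp t (hasDerivAt_neg t)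
    rw [neg_one_smul, ← h] at h1
    exact h1
  · simp only
    rw [← hper (-(t + T))]
    congr 1
    ring
  · ext p
    constructor
    · rintro ⟨t, rfl⟩; exact ⟨-t, by simp⟩
    · rintro ⟨t, rfl⟩; exact ⟨-t, rfl⟩

lemma osc_field (Q : MvPolynomial (Fin 2) ℝ) (s : ℝ) (p : ℝ × ℝ) :
    field oF (oG Q s) 0 p = - osc Q s p := by
  unfold field osc
  rw [ev_oF, ev_oG]
  ext
  · simp
  · simp; ring

/-- no closed orbits if the damping has a sign -/
lemma no_orbits {s : ℝ} {ε : ℝ} (hε : ε = 1 ∨ ε = -1) (hs : ∀ p ∈ A, 0 < ε * (ev Q p + s)) :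
    closedOrbitsIn (osc Q s) A = ∅ := by
  by_contra hne
  obtain ⟨C, ⟨γ, T, hT, hγ, hper, ⟨a, b, hab⟩, rfl⟩, hsub⟩ := Set.nonempty_iff_ne_empty.2 hne
  have hε2 : ε * ε = 1 := by rcases hε with h | h <;> rw [h] <;> norm_num
  have hd : ∀ t, HasDerivAt (fun t => -ε * ((γ t).1 ^ 2 + (γ t).2 ^ 2))
      (2 * ((γ t).2 ^ 2 * (ε * (ev Q (γ t) + s)))) t := by
    intro t
    have h1 : HasDerivAt (fun t => (γ t).1) (γ t).2 t := (hγ t).fst
    have h2 : HasDerivAt (fun t => (γ t).2) (- (γ t).1 - (γ t).2 * (ev Q (γ t) + s)) t :=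
      (hγ t).snd
    refine (((h1.pow 2).add (h2.pow 2)).const_mul (-ε)).congr_deriv ?_
    push_cast
    ring
  have hnn : ∀ t, 0 ≤ 2 * ((γ t).2 ^ 2 * (ε * (ev Q (γ t) + s))) := fun t => by
    have := hs (γ t) (hsub ⟨t, rfl⟩)
    positivity
  have hm : Monotone fun t => -ε * ((γ t).1 ^ 2 + (γ t).2 ^ 2) :=
    monotone_of_deriv_nonneg (fun t => (hd t).differentiableAt) fun t => by
      rw [(hd t).deriv]; exact hnn t
  have hpern : ∀ (n : ℕ) t, γ (t + n * T) = γ t := by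
    intro n
    induction n with
    | zero => intro t; simp
    | succ n ih =>
      intro t
      rw [Nat.cast_succ, add_one_mul, ← add_assoc, hper, ih]
  have hconst : ∀ t t', t ≤ t' → -ε * ((γ t).1 ^ 2 + (γ t).2 ^ 2) =
      -ε * ((γ t').1 ^ 2 + (γ t').2 ^ 2) := by
    intro t t' htt
    obtain ⟨n, hn⟩ := exists_nat_ge ((t' - t) / T)
    have h1 : t' ≤ t + n * T := by
      rw [div_le_iff₀ hT] at hn
      linarith
    have h2 := hm htt
    have h3 := hm h1
    simp only [hpern n t] at h3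
    exact le_antisymm h2 h3
  have hv : ∀ t, (γ t).2 = 0 := by
    intro t
    have h1 : HasDerivAt (fun t => -ε * ((γ t).1 ^ 2 + (γ t).2 ^ 2)) 0 t := by
      refine (hasDerivAt_const t (-ε * ((γ t).1 ^ 2 + (γ t).2 ^ 2))).congr_of_eventuallyEq ?_
      filter_upwards with x
      rcases le_total x t with h | h
      · exact hconst x t h
      · exact (hconst t x h).symm
    have h2 := (hd t).unique h1
    have h3 := hs (γ t) (hsub ⟨t, rfl⟩)
    by_contra hne
    have : 0 < (γ t).2 ^ 2 := by positivity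
    have : 0 < 2 * ((γ t).2 ^ 2 * (ε * (ev Q (γ t) + s))) := by positivity
    linarith
  have hdu : ∀ t, HasDerivAt (fun t => (γ t).1) (γ t).2 t := fun t => (hγ t).fst
  have hu : ∀ t t', (γ t).1 = (γ t').1 := by
    refine is_const_of_deriv_eq_zero (f := fun t => (γ t).1) (fun t => (hdu t).differentiableAt)
      (fun t => ?_)
    rw [(hdu t).deriv]
    exact hv t
  exact hab (Prod.ext (hu a b) (by rw [hv a, hv b]))

/-- **The mean number of closed orbits of oscillators.** -/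
theorem osc_mean {n : ℕ} (hQ : Q.totalDegree ≤ n) (hA : ∀ t, (ray A t).OrdConnected)
    (h0 : (0 : ℝ × ℝ) ∉ A) (hmM : ∀ p ∈ A, m ≤ ev Q p ∧ ev Q p ≤ M) (hle : m ≤ M)
    (hW : M - m < 2) :
    (∀ s ∉ Icc (-M) (-m), closedOrbitsIn (osc Q s) A = ∅) ∧
    ∃ G : ℝ → ℝ≥0∞, Measurable G ∧
      (∀ s, ((closedOrbitsIn (osc Q s) A).encard : ℝ≥0∞) ≤ G s) ∧
      2 * ∫⁻ s, G s ≤ ENNReal.ofReal (((2 + (M - m)) / (2 - (M - m))) ^ 2) *
        (n * ENNReal.ofReal (M - m)) := by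
  have hempty : ∀ s ∉ Icc (-M) (-m), closedOrbitsIn (osc Q s) A = ∅ := by
    intro s hs
    rw [mem_Icc, not_and_or, not_le, not_le] at hs
    rcases hs with hs | hs
    · exact no_orbits (ε := -1) (Or.inr rfl) fun p hp => by linarith [(hmM p hp).2]
    · exact no_orbits (ε := 1) (Or.inl rfl) fun p hp => by linarith [(hmM p hp).1]
  refine ⟨hempty, ?_⟩
  have hpi := Real.two_pi_pos
  have hpi' := Real.pi_pos
  have hA' := reg_ord hA
  obtain ⟨G, hGm, hG, hGi⟩ := semi_mean hpi (semiRot hA h0 hmM hle hW)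
  refine ⟨G, hGm, fun s => ?_, ?_⟩
  · by_cases hs : s ∈ Icc (-M) (-m)
    · refine le_trans ?_ (hG s hs)
      refine ENat.toENNReal_le.2 ?_
      have hsub : closedOrbitsIn (osc Q s) A ⊆
          (fun h : Icc 0 (2 * Real.pi) → ℝ => range fun t : Icc 0 (2 * Real.pi) =>
            ((Real.exp (h t) * Real.cos t, Real.exp (h t) * Real.sin t) : ℝ × ℝ)) ''
            closedIn (2 * Real.pi) (reg A) (sc oF (oG Q s)) 0 := by
        intro C hC
        obtain ⟨ρ, hρ, hCρ⟩ := orbit_sc hA' (ang_pos h0 hmM hW hs) (reverse (osc_field Q s) A hC)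
        refine ⟨(Icc 0 (2 * Real.pi)).domRestrict ρ, ⟨ρ, hρ, rfl⟩, ?_⟩
        rw [hCρ]
        ext p
        constructor
        · rintro ⟨t, rfl⟩
          exact ⟨t, t.2, rfl⟩
        · rintro ⟨t, ht, rfl⟩
          exact ⟨⟨t, ht⟩, rfl⟩
      exact (encard_le_encard hsub).trans (encard_image_le _ _)
    · rw [hempty s hs]; simp
  · have hI : ∫ t in (0:ℝ)..(2 * Real.pi), Real.sin t ^ 2 = Real.pi := by
      rw [integral_sin_sq]; simp
    rw [hI] at hGi
    have h1 := int_pair_w (pair_Q hQ hA hmM h0)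
    have hW0 : 0 ≤ M - m := by linarith
    have c1 : 0 < 1 + (M - m) / 2 := by linarith
    have c2 : 0 < 1 - (M - m) / 2 := by linarith
    have h2 := hGi.trans (mul_le_mul_right h1 _)
    set B : ℝ≥0∞ := n * ENNReal.ofReal (M - m) with hB
    set I : ℝ≥0∞ := ∫⁻ s, G s with hI'
    -- multiply by a constant
    have h3 := mul_le_mul_right h2 (ENNReal.ofReal (2 * (1 + (M - m) / 2) ^ 2 / Real.pi))
    have e1 : ENNReal.ofReal (2 * (1 + (M - m) / 2) ^ 2 / Real.pi) *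
        (ENNReal.ofReal (((1 + (M - m) / 2) ^ 2)⁻¹ * Real.pi) * I) = 2 * I := by
      rw [← mul_assoc, ← ENNReal.ofReal_mul (by positivity)]
      rw [show 2 * (1 + (M - m) / 2) ^ 2 / Real.pi * (((1 + (M - m) / 2) ^ 2)⁻¹ * Real.pi) = 2 by
        field_simp]
      simp
    have e2 : ENNReal.ofReal (2 * (1 + (M - m) / 2) ^ 2 / Real.pi) *
        (ENNReal.ofReal (((1 - (M - m) / 2) ^ 2)⁻¹) * (ENNReal.ofReal (Real.pi / 2) * B)) =
        ENNReal.ofReal (((2 + (M - m)) / (2 - (M - m))) ^ 2) * B := by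
      rw [← mul_assoc, ← mul_assoc, ← ENNReal.ofReal_mul (by positivity),
        ← ENNReal.ofReal_mul (by positivity)]
      congr 2
      have c3 : 0 < 2 - (M - m) := by linarith
      rw [show (1 + (M - m) / 2) = (2 + (M - m)) / 2 by ring,
        show (1 - (M - m) / 2) = (2 - (M - m)) / 2 by ring]
      field_simp
    rw [e1, e2] at h3
    exact h3

end Pool.Agent.J4H90.LI
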