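import Mathlib
import Pool.Agent.J4H90.LI.Osc
import Pool.Agent.TH525.PU.RigidMain

/-! The mean number of the closed orbits of nonlinear oscillators: the origin, Liénard equations
and sharpness. -/

open Set MeasureTheory Topology Filter
open scoped ENNReal NNReal

namespace Pool.Agent.J4H90.LI

open Pool.Agent.TH525.PU hiding pt ang field
open Pool.Agent.TH525.AG

variable {Q : MvPolynomial (Fin 2) ℝ} {A : Set (ℝ × ℝ)} {m M : ℝ}

/-- the closed orbits avoid the equilibrium -/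
lemma orbits_punct {s : ℝ} (hmM : ∀ p ∈ A, m ≤ ev Q p ∧ ev Q p ≤ M) :
    closedOrbitsIn (osc Q s) A ⊆ closedOrbitsIn (osc Q s) (A \ {0}) := by
  rintro C ⟨⟨γ, T, hT, hγ, hper, ⟨a, b, hab⟩, rfl⟩, hsub⟩
  refine ⟨⟨γ, T, hT, hγ, hper, ⟨a, b, hab⟩, rfl⟩, ?_⟩
  rintro _ ⟨t0, rfl⟩
  refine ⟨hsub ⟨t0, rfl⟩, fun h0 => hab ?_⟩
  have h0 : γ t0 = 0 := h0
  set E : ℝ → ℝ := fun t => (γ t).1 ^ 2 + (γ t).2 ^ 2 with hE
  set K : ℝ := max |m + s| |M + s| with hK
  have hd : ∀ t, HasDerivAt E (-2 * ((γ t).2 ^ 2 * (ev Q (γ t) + s))) t := by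
    intro t
    have h1 : HasDerivAt (fun t => (γ t).1) (γ t).2 t := (hγ t).fst
    have h2 : HasDerivAt (fun t => (γ t).2) (- (γ t).1 - (γ t).2 * (ev Q (γ t) + s)) t :=
      (hγ t).snd
    refine ((h1.pow 2).add (h2.pow 2)).congr_deriv ?_
    push_cast
    ring
  have hk : ∀ t, |ev Q (γ t) + s| ≤ K := by
    intro t
    have h := hmM (γ t) (hsub ⟨t, rfl⟩)
    have h1 := (neg_abs_le (m + s)).trans (add_le_add_left h.1 s)
    have h2 := (add_le_add_left h.2 s).trans (le_abs_self (M + s))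
    rw [abs_le]
    constructor
    · linarith [le_max_left |m + s| |M + s|]
    · linarith [le_max_right |m + s| |M + s|]
  have hb : ∀ t, |(-2 * ((γ t).2 ^ 2 * (ev Q (γ t) + s)))| ≤ 2 * K * E t := by
    intro t
    rw [abs_mul, abs_mul, abs_of_nonneg (sq_nonneg (γ t).2)]
    have h1 : (γ t).2 ^ 2 ≤ E t := by simp only [hE]; nlinarith [sq_nonneg (γ t).1]
    have hK0 : 0 ≤ K := (abs_nonneg _).trans (hk t)
    calc |(-2:ℝ)| * ((γ t).2 ^ 2 * |ev Q (γ t) + s|) ≤ 2 * (E t * K) := by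
          rw [show |(-2:ℝ)| = 2 by norm_num]
          gcongr
          exact hk t
      _ = _ := by ring
  have hexp : ∀ c t : ℝ, HasDerivAt (fun t => E t * Real.exp (c * t))
      ((-2 * ((γ t).2 ^ 2 * (ev Q (γ t) + s)) + c * E t) * Real.exp (c * t)) t := by
    intro c t
    have h1 : HasDerivAt (fun t => Real.exp (c * t)) (Real.exp (c * t) * c) t := by
      have := ((hasDerivAt_id t).const_mul c).exp
      simpa using this
    refine ((hd t).mul h1).congr_deriv ?_
    ring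
  have hmono : Monotone fun t => E t * Real.exp ((2 * K) * t) :=
    monotone_of_deriv_nonneg (fun t => (hexp _ t).differentiableAt) fun t => by
      rw [(hexp _ t).deriv]
      have := (abs_le.1 (hb t)).1
      exact mul_nonneg (by linarith) (Real.exp_pos _).le
  have hanti : Antitone fun t => E t * Real.exp ((-(2 * K)) * t) :=
    antitone_of_deriv_nonpos (fun t => (hexp _ t).differentiableAt) fun t => by
      rw [(hexp _ t).deriv]
      have := (abs_le.1 (hb t)).2
      exact mul_nonpos_of_nonpos_of_nonneg (by linarith) (Real.exp_pos _).le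
  have hE0 : E t0 = 0 := by simp [hE, h0]
  have hz : ∀ t, γ t = 0 := by
    intro t
    have h1 : E t ≤ 0 := by
      rcases le_total t t0 with h | h
      · have h2 := hmono h
        simp only [hE0, zero_mul] at h2
        by_contra hcon
        push Not at hcon
        exact absurd h2 (not_le.2 (mul_pos hcon (Real.exp_pos _)))
      · have h2 := hanti h
        simp only [hE0, zero_mul] at h2
        by_contra hcon
        push Not at hcon
        exact absurd h2 (not_le.2 (mul_pos hcon (Real.exp_pos _)))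
    have h1' : (γ t).1 ^ 2 + (γ t).2 ^ 2 ≤ 0 := h1
    have h3 : (γ t).1 = 0 := by nlinarith [sq_nonneg (γ t).1, sq_nonneg (γ t).2]
    have h4 : (γ t).2 = 0 := by nlinarith [sq_nonneg (γ t).1, sq_nonneg (γ t).2]
    exact Prod.ext h3 h4
  rw [hz a, hz b]

lemma ray_diff (A : Set (ℝ × ℝ)) (t : ℝ) : ray (A \ {0}) t = ray A t := by
  ext r
  constructor
  · rintro ⟨h1, h2⟩
    exact ⟨h1, h2.1⟩
  · rintro ⟨h1, h2⟩
    refine ⟨h1, h2, fun h => ?_⟩
    have h3 : ((r * Real.cos t, r * Real.sin t) : ℝ × ℝ) = 0 := h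
    have h4 := congrArg Prod.fst h3
    have h5 := congrArg Prod.snd h3
    simp only [Prod.fst_zero, Prod.snd_zero, mul_eq_zero, h1.ne', false_or] at h4 h5
    have := Real.sin_sq_add_cos_sq t
    rw [h4, h5] at this
    norm_num at this

/-- **The mean number of closed orbits of oscillators**, the origin being allowed in the region. -/
theorem osc_mean' {n : ℕ} (hQ : Q.totalDegree ≤ n) (hA : ∀ t, (ray A t).OrdConnected)
    (hmM : ∀ p ∈ A, m ≤ ev Q p ∧ ev Q p ≤ M) (hle : m ≤ M) (hW : M - m < 2) :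
    (∀ s ∉ Icc (-M) (-m), closedOrbitsIn (osc Q s) A = ∅) ∧
    ∃ G : ℝ → ℝ≥0∞, Measurable G ∧
      (∀ s, ((closedOrbitsIn (osc Q s) A).encard : ℝ≥0∞) ≤ G s) ∧
      2 * ∫⁻ s, G s ≤ ENNReal.ofReal (((2 + (M - m)) / (2 - (M - m))) ^ 2) *
        (n * ENNReal.ofReal (M - m)) := by
  obtain ⟨h1, G, hGm, hG, hGi⟩ := osc_mean (Q := Q) (A := A \ {0}) (m := m) (M := M) hQ
    (fun t => by rw [ray_diff]; exact hA t) (fun h => h.2 rfl) (fun p hp => hmM p hp.1) hle hW
  refine ⟨fun s hs => ?_, G, hGm, fun s => ?_, hGi⟩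
  · have := orbits_punct (s := s) hmM
    rw [h1 s hs] at this
    exact subset_empty_iff.1 this
  · refine le_trans ?_ (hG s)
    exact ENat.toENNReal_le.2 (encard_le_encard (orbits_punct hmM))

lemma circle_osc {r s : ℝ} (hr : 0 < r)
    (hH : ∀ t, ev Q (r * Real.cos t, - (r * Real.sin t)) = -s)
    (hA : ∀ t : ℝ, ((r * Real.cos t, - (r * Real.sin t)) : ℝ × ℝ) ∈ A) :
    (range fun t : ℝ => ((r * Real.cos t, - (r * Real.sin t)) : ℝ × ℝ)) ∈
      closedOrbitsIn (osc Q s) A := by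
  refine ⟨⟨fun t => (r * Real.cos t, - (r * Real.sin t)), 2 * Real.pi, Real.two_pi_pos, ?_, ?_,
    ?_, rfl⟩, ?_⟩
  · intro t
    unfold osc
    simp only [hH t, neg_add_cancel, mul_zero, sub_zero]
    have h1 := (Real.hasDerivAt_cos t).const_mul r
    have h2 := ((Real.hasDerivAt_sin t).const_mul r).neg
    have := h1.prodMk h2
    rwa [mul_neg] at this
  · intro t
    simp only [Real.cos_add_two_pi, Real.sin_add_two_pi]
  · refine ⟨0, Real.pi, ?_⟩
    intro h
    have := congrArg Prod.fst h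
    simp only [Real.cos_zero, Real.cos_pi] at this
    linarith
  · rintro _ ⟨t, rfl⟩
    exact hA t

theorem osc_sharp {k : ℕ} (hk : 1 ≤ k) {R ε : ℝ} (hR : 0 < R) (hε : 0 < ε) :
    ∃ Q : MvPolynomial (Fin 2) ℝ, Q.totalDegree ≤ 2 * k ∧
      (∀ p ∈ disc R, -ε ≤ ev Q p ∧ ev Q p ≤ ε) ∧
      ∀ s ∈ Ioo (-ε) ε, (k : ℕ∞) ≤ (closedOrbitsIn (osc Q s) (disc R)).encard := by
  have hk0 : k ≠ 0 := by omega
  have hev : ∀ p, ev (MvPolynomial.C ε * chebH k R) p = ε * ev (chebH k R) p := by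
    intro p; simp [ev]
  refine ⟨MvPolynomial.C ε * chebH k R, ?_, ?_, ?_⟩
  · refine (MvPolynomial.totalDegree_mul _ _).trans ?_
    rw [MvPolynomial.totalDegree_C, zero_add]
    exact chebH_deg k R
  · intro p hp
    rw [hev]
    unfold ev
    rw [chebH_eval]
    have h1 : p.1 ^ 2 + p.2 ^ 2 ≤ R ^ 2 := hp
    have h2 := Polynomial.Chebyshev.eval_T_real_mem_Icc (x := 2 / R ^ 2 * (p.1 ^ 2 + p.2 ^ 2) - 1)
      k ⟨by
        have : 0 ≤ 2 / R ^ 2 * (p.1 ^ 2 + p.2 ^ 2) := by positivity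
        linarith, by
        have : 2 / R ^ 2 * (p.1 ^ 2 + p.2 ^ 2) ≤ 2 := by
          rw [div_mul_eq_mul_div, div_le_iff₀ (by positivity)]
          linarith
        linarith⟩
    constructor
    · nlinarith [h2.1]
    · nlinarith [h2.2]
  · intro s hs
    have hs' : -s / ε ∈ Ioo (-1:ℝ) 1 := by
      constructor
      · rw [lt_div_iff₀ hε]; linarith [hs.2]
      · rw [div_lt_iff₀ hε]; linarith [hs.1]
    set y : ℝ := -s / ε with hy
    set r : ℕ → ℝ := fun j => R * Real.sqrt ((1 + TH525.PU.pt k y j) / 2) with hr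
    have hr0 : ∀ j < k, 0 < r j := by
      intro j hj
      have := (pt_Ioo hs' hj).1
      exact mul_pos hR (Real.sqrt_pos.2 (by linarith))
    have hrR : ∀ j < k, r j ≤ R := by
      intro j hj
      have h1 := (pt_Ioo hs' hj).2
      have h2 : Real.sqrt ((1 + TH525.PU.pt k y j) / 2) ≤ 1 := by
        exact Real.sqrt_le_iff.2 ⟨zero_le_one, by linarith⟩
      calc r j ≤ R * 1 := mul_le_mul_of_nonneg_left h2 hR.le
        _ = R := mul_one R
    have hrsq : ∀ j < k, 2 / R ^ 2 * r j ^ 2 - 1 = TH525.PU.pt k y j := by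
      intro j hj
      have := (pt_Ioo hs' hj).1
      simp only [hr]
      rw [mul_pow, Real.sq_sqrt (by linarith)]
      field_simp
      ring
    have hcirc : ∀ (ρ t : ℝ), (ρ * Real.cos t) ^ 2 + (-(ρ * Real.sin t)) ^ 2 = ρ ^ 2 := by
      intro ρ t
      have := Real.sin_sq_add_cos_sq t
      calc _ = ρ ^ 2 * (Real.sin t ^ 2 + Real.cos t ^ 2) := by ring
        _ = _ := by rw [this, mul_one]
    refine encard_of_inj (fun j => range fun t : ℝ =>
      ((r j * Real.cos t, - (r j * Real.sin t)) : ℝ × ℝ)) ?_ ?_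
    · intro j hj
      refine circle_osc (hr0 j hj) (fun t => ?_) (fun t => ?_)
      · rw [hev]
        unfold ev
        rw [chebH_eval]
        simp only
        rw [hcirc, hrsq j hj, pt_eval hk0 hs', hy]
        field_simp
      · show (r j * Real.cos t) ^ 2 + (-(r j * Real.sin t)) ^ 2 ≤ R ^ 2
        rw [hcirc]
        exact pow_le_pow_left₀ (hr0 j hj).le (hrR j hj) 2
    · intro j hj l hl h
      have h1 : ((r j * Real.cos 0, - (r j * Real.sin 0)) : ℝ × ℝ) ∈
          range fun t : ℝ => ((r l * Real.cos t, - (r l * Real.sin t)) : ℝ × ℝ) := by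
        rw [← h]; exact ⟨0, rfl⟩
      obtain ⟨t, ht⟩ := h1
      have h2 := congrArg (fun p : ℝ × ℝ => p.1 ^ 2 + p.2 ^ 2) ht
      simp only [hcirc] at h2
      apply pt_inj hs' hj hl
      rw [← hrsq j hj, ← hrsq l hl, h2]

end Pool.Agent.J4H90.LI
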