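import Mathlib
import Pool.Agent.TH525.AG.AngMean
import Pool.Agent.J4H90.LI.Semi

/-! The mean number of the closed orbits of the rotated fields of a polynomial field. -/

open Set MeasureTheory Topology Filter
open scoped ENNReal NNReal

namespace Pool.Agent.J4H90.LI

open Pool.Agent.TH525.PU hiding pt ang field
open Pool.Agent.TH525.AG

open Classical in
/-- the variations of `arctan (p / q)` on two disjoint intervals -/
theorem var_arctan_roots {p q : Polynomial ℝ} {n : ℕ} (hp : p.natDegree ≤ n)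
    (hq : q.natDegree ≤ n)
    {I J : Set ℝ} (hI : I.OrdConnected) (hJ : J.OrdConnected) (hIJ : Disjoint I J)
    (hqI : ∀ x ∈ I, q.eval x ≠ 0) (hqJ : ∀ x ∈ J, q.eval x ≠ 0) {m M : ℝ}
    (hbI : ∀ x ∈ I, m ≤ Real.arctan (p.eval x / q.eval x) ∧
      Real.arctan (p.eval x / q.eval x) ≤ M)
    (hbJ : ∀ x ∈ J, m ≤ Real.arctan (p.eval x / q.eval x) ∧
      Real.arctan (p.eval x / q.eval x) ≤ M) :
    eVariationOn (fun r => Real.arctan (p.eval r / q.eval r)) I +
      eVariationOn (fun r => Real.arctan (p.eval r / q.eval r)) J ≤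
      n * ENNReal.ofReal (M - m) := by
  have hc : ∀ {V : Set ℝ}, (∀ x ∈ V, q.eval x ≠ 0) →
      ContinuousOn (fun r => Real.arctan (p.eval r / q.eval r)) V := fun h =>
    Real.continuous_arctan.comp_continuousOn
      (p.continuous.continuousOn.div q.continuous.continuousOn h)
  by_cases hW : ∃ y : ℝ, p - Polynomial.C y * q = 0
  · obtain ⟨y, hy⟩ := hW
    have h0 : ∀ {V : Set ℝ}, (∀ x ∈ V, q.eval x ≠ 0) →
        ∀ x ∈ V, (fun r => Real.arctan (p.eval r / q.eval r)) x = Real.arctan y := by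
      intro V hqV x hx
      have h1 : p.eval x = y * q.eval x := by
        have := congrArg (Polynomial.eval x) hy
        simp only [Polynomial.eval_sub, Polynomial.eval_mul, Polynomial.eval_C,
          Polynomial.eval_zero] at this
        linarith
      simp only [h1]
      rw [mul_div_cancel_right₀ y (hqV x hx)]
    rw [var_of_const (h0 hqI), var_of_const (h0 hqJ)]
    simp
  · push Not at hW
    set R : ℝ → Finset ℝ := fun y => (p - Polynomial.C (Real.tan y) * q).roots.toFinset with hR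
    have hRm : ∀ {V : Set ℝ}, (∀ x ∈ V, q.eval x ≠ 0) →
        ∀ y, ∀ x ∈ V, (fun r => Real.arctan (p.eval r / q.eval r)) x = y → x ∈ R y := by
      intro V hqV y x hx he
      rw [hR, Multiset.mem_toFinset, Polynomial.mem_roots (hW _)]
      simp only at he
      rw [← he, Real.tan_arctan, Polynomial.IsRoot, Polynomial.eval_sub, Polynomial.eval_mul,
        Polynomial.eval_C, div_mul_cancel₀ _ (hqV x hx), sub_self]
    have v1 := var_le_count hI (hc hqI) hbI R (hRm hqI)
    have v2 := var_le_count hJ (hc hqJ) hbJ R (hRm hqJ)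
    refine (add_le_add v1 v2).trans ((le_lintegral_add _ _).trans ?_)
    calc _ ≤ ∫⁻ _ in Icc m M, (n : ℝ≥0∞) := by
          refine lintegral_mono fun y => ?_
          simp only
          norm_cast
          rw [← Finset.card_union_of_disjoint]
          · refine (Finset.card_le_card (t := R y) ?_).trans ?_
            · exact Finset.union_subset (Finset.filter_subset _ _) (Finset.filter_subset _ _)
            · refine (Multiset.toFinset_card_le _).trans ((Polynomial.card_roots' _).trans ?_)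
              refine (Polynomial.natDegree_sub_le _ _).trans (max_le hp ?_)
              exact (Polynomial.natDegree_C_mul_le _ _).trans hq
          · rw [Finset.disjoint_left]
            intro x hx hx'
            exact Set.disjoint_left.1 hIJ (Finset.mem_filter.1 hx).2 (Finset.mem_filter.1 hx').2
      _ = _ := by
          rw [lintegral_const, Measure.restrict_apply MeasurableSet.univ, univ_inter,
            Real.volume_Icc]

variable {f g : MvPolynomial (Fin 2) ℝ} {A : Set (ℝ × ℝ)} {m M a b K : ℝ}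

lemma pair_arctan (hA : ∀ t, (ray A t).OrdConnected) {t : ℝ} {p q : Polynomial ℝ} {N : ℕ}
    (hp : p.natDegree ≤ N) (hq : q.natDegree ≤ N)
    (hpq : ∀ r : ℝ, r ≠ 0 → (r * Real.cos t, r * Real.sin t) ∈ A → q.eval r ≠ 0 ∧
      rad f g (r * Real.cos t, r * Real.sin t) / ang f g (r * Real.cos t, r * Real.sin t) =
        p.eval r / q.eval r)
    (hmM : ∀ p ∈ A, m ≤ Real.arctan (rad f g p / ang f g p) ∧
      Real.arctan (rad f g p / ang f g p) ≤ M) :
    eVariationOn (fun x => Real.arctan (sc f g t x)) (reg A t) +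
      eVariationOn (fun x => Real.arctan (sc f g (t + Real.pi) x)) (reg A (t + Real.pi)) ≤
      N * ENNReal.ofReal (M - m) := by
  set R : ℝ → ℝ := fun r => Real.arctan (p.eval r / q.eval r) with hR
  set J : Set ℝ := {r | r < 0 ∧ (r * Real.cos t, r * Real.sin t) ∈ A} with hJ
  have hJo : J.OrdConnected := by
    have h1 : J = Neg.neg ⁻¹' (ray A (t + Real.pi)) := by
      ext r
      simp only [hJ, ray, mem_ofPred_eq, mem_preimage, Real.cos_add_pi, Real.sin_add_pi,
        neg_mul_neg, Left.neg_pos_iff]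
    rw [h1]
    exact (hA _).preimage_anti (fun _ _ h => neg_le_neg h)
  have e1 : eVariationOn (fun x => Real.arctan (sc f g t x)) (reg A t) ≤
      eVariationOn R (ray A t) := by
    have h1 : EqOn (fun x => Real.arctan (sc f g t x)) (R ∘ Real.exp) (reg A t) := fun x hx =>
      congrArg Real.arctan (hpq (Real.exp x) (Real.exp_pos x).ne' hx).2
    rw [eVariationOn.congr h1]
    exact eVariationOn.comp_le_of_monotoneOn R Real.exp (Real.exp_monotone.monotoneOn _)
      (fun x hx => ⟨Real.exp_pos x, hx⟩)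
  have e2 : eVariationOn (fun x => Real.arctan (sc f g (t + Real.pi) x)) (reg A (t + Real.pi)) ≤
      eVariationOn R J := by
    have hm : ∀ x ∈ reg A (t + Real.pi),
        ((-Real.exp x) * Real.cos t, (-Real.exp x) * Real.sin t) ∈ A := by
      intro x hx
      have : pt (t + Real.pi) x ∈ A := hx
      rwa [pt_pi] at this
    have h1 : EqOn (fun x => Real.arctan (sc f g (t + Real.pi) x)) (R ∘ (fun x => -Real.exp x))
        (reg A (t + Real.pi)) := by
      intro x hx
      have h2 := (hpq (-Real.exp x) (neg_ne_zero.2 (Real.exp_pos x).ne') (hm x hx)).2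
      simp only [sc, Function.comp_apply]
      rw [pt_pi]
      exact congrArg Real.arctan h2
    rw [eVariationOn.congr h1]
    exact eVariationOn.comp_le_of_antitoneOn R (fun x => -Real.exp x)
      (fun x _ y _ h => neg_le_neg (Real.exp_le_exp.2 h))
      (fun x hx => ⟨neg_neg_of_pos (Real.exp_pos x), hm x hx⟩)
  refine (add_le_add e1 e2).trans ?_
  refine var_arctan_roots hp hq (hA t) hJo ?_ ?_ ?_ ?_ ?_
  · rw [Set.disjoint_left]
    intro r hr hr'
    exact absurd hr.1 (not_lt.2 hr'.1.le)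
  · intro r hr
    exact (hpq r hr.1.ne' hr.2).1
  · intro r hr
    exact (hpq r hr.1.ne hr.2).1
  · intro r hr
    rw [← (hpq r hr.1.ne' hr.2).2]
    exact hmM _ hr.2
  · intro r hr
    rw [← (hpq r hr.1.ne hr.2).2]
    exact hmM _ hr.2

lemma pair_one' {n : ℕ} (hf : f.totalDegree ≤ n) (hg : g.totalDegree ≤ n)
    (hA : ∀ t, (ray A t).OrdConnected) (hpos : ∀ p ∈ A, 0 < ang f g p)
    (hmM : ∀ p ∈ A, m ≤ Real.arctan (rad f g p / ang f g p) ∧
      Real.arctan (rad f g p / ang f g p) ≤ M) (t : ℝ) :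
    eVariationOn (fun x => Real.arctan (sc f g t x)) (reg A t) +
      eVariationOn (fun x => Real.arctan (sc f g (t + Real.pi) x)) (reg A (t + Real.pi)) ≤
      n * ENNReal.ofReal (M - m) := by
  refine pair_arctan hA (pP_deg hf hg t) (qP_deg hf hg t) (fun r hr hrA => ?_) hmM
  have h1 := hpos _ hrA
  rw [ang_ray] at h1
  refine ⟨fun h => ?_, ?_⟩
  · rw [h, mul_zero] at h1; exact lt_irrefl _ h1
  · rw [ang_ray, rad_ray, mul_div_mul_left _ _ hr]

lemma pair_two' {n : ℕ} (hf : f.totalDegree ≤ n) (hg : g.totalDegree ≤ n)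
    (hf0 : ev f 0 = 0) (hg0 : ev g 0 = 0)
    (hA : ∀ t, (ray A t).OrdConnected) (hpos : ∀ p ∈ A, 0 < ang f g p)
    (hmM : ∀ p ∈ A, m ≤ Real.arctan (rad f g p / ang f g p) ∧
      Real.arctan (rad f g p / ang f g p) ≤ M) (t : ℝ) :
    eVariationOn (fun x => Real.arctan (sc f g t x)) (reg A t) +
      eVariationOn (fun x => Real.arctan (sc f g (t + Real.pi) x)) (reg A (t + Real.pi)) ≤
      (n - 1 : ℕ) * ENNReal.ofReal (M - m) := by
  have z0 : ((0 * Real.cos t, 0 * Real.sin t) : ℝ × ℝ) = 0 := by simp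
  have hp0 : (pP f g t).coeff 0 = 0 := by
    rw [Polynomial.coeff_zero_eq_eval_zero, pP_eval, z0, hf0, hg0]; ring
  have hq0 : (qP f g t).coeff 0 = 0 := by
    rw [Polynomial.coeff_zero_eq_eval_zero, qP_eval, z0, hf0, hg0]; ring
  have hp1 := Polynomial.divX_mul_X_add (pP f g t)
  have hq1 := Polynomial.divX_mul_X_add (qP f g t)
  rw [hp0, map_zero, add_zero] at hp1
  rw [hq0, map_zero, add_zero] at hq1
  have hp2 : ∀ r, (pP f g t).eval r = (pP f g t).divX.eval r * r := by
    intro r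
    conv_lhs => rw [← hp1]
    rw [Polynomial.eval_mul, Polynomial.eval_X]
  have hq2 : ∀ r, (qP f g t).eval r = (qP f g t).divX.eval r * r := by
    intro r
    conv_lhs => rw [← hq1]
    rw [Polynomial.eval_mul, Polynomial.eval_X]
  refine pair_arctan hA (p := (pP f g t).divX) (q := (qP f g t).divX) ?_ ?_
    (fun r hr hrA => ?_) hmM
  · rw [Polynomial.natDegree_divX_eq_natDegree_tsub_one]
    exact Nat.sub_le_sub_right (pP_deg hf hg t) 1
  · rw [Polynomial.natDegree_divX_eq_natDegree_tsub_one]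
    exact Nat.sub_le_sub_right (qP_deg hf hg t) 1
  · have h1 := hpos _ hrA
    rw [ang_ray, hq2] at h1
    refine ⟨fun h => ?_, ?_⟩
    · rw [h] at h1; simp at h1
    · rw [ang_ray, rad_ray, mul_div_mul_left _ _ hr, hp2, hq2, mul_div_mul_right _ _ hr]

/-- the components of the field rotated by `-s` -/
noncomputable def rF (f g : MvPolynomial (Fin 2) ℝ) (s : ℝ) : MvPolynomial (Fin 2) ℝ :=
  MvPolynomial.C (Real.cos s) * f + MvPolynomial.C (Real.sin s) * g

noncomputable def rG (f g : MvPolynomial (Fin 2) ℝ) (s : ℝ) : MvPolynomial (Fin 2) ℝ :=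
  MvPolynomial.C (Real.cos s) * g - MvPolynomial.C (Real.sin s) * f

/-- the field rotated by the angle `α` -/
noncomputable def rotF (f g : MvPolynomial (Fin 2) ℝ) (α : ℝ) (p : ℝ × ℝ) : ℝ × ℝ :=
  (Real.cos α * ev f p - Real.sin α * ev g p, Real.sin α * ev f p + Real.cos α * ev g p)

lemma ev_rF (s : ℝ) (p : ℝ × ℝ) :
    ev (rF f g s) p = Real.cos s * ev f p + Real.sin s * ev g p := by simp [ev, rF]

lemma ev_rG (s : ℝ) (p : ℝ × ℝ) :
    ev (rG f g s) p = Real.cos s * ev g p - Real.sin s * ev f p := by simp [ev, rG]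

lemma rot_field (s : ℝ) (p : ℝ × ℝ) :
    field (rF f g s) (rG f g s) 0 p = rotF f g (-s) p := by
  unfold field rotF
  rw [ev_rF, ev_rG, Real.cos_neg, Real.sin_neg]
  ext
  · simp
  · simp; ring

lemma rad_r (s : ℝ) (p : ℝ × ℝ) : rad (rF f g s) (rG f g s) p =
    Real.cos s * rad f g p + Real.sin s * ang f g p := by
  unfold rad ang; rw [ev_rF, ev_rG]; ring

lemma ang_r (s : ℝ) (p : ℝ × ℝ) : ang (rF f g s) (rG f g s) p =
    Real.cos s * ang f g p - Real.sin s * rad f g p := by
  unfold rad ang; rw [ev_rF, ev_rG]; ring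

lemma rad_phi {p : ℝ × ℝ} (h : 0 < ang f g p) (s : ℝ) :
    rad (rF f g s) (rG f g s) p * Real.cos (Real.arctan (rad f g p / ang f g p)) =
      ang f g p * Real.sin (Real.arctan (rad f g p / ang f g p) + s) := by
  set φ := Real.arctan (rad f g p / ang f g p) with hφ
  have h1 : rad f g p / ang f g p = Real.tan φ := by rw [hφ, Real.tan_arctan]
  have hc : 0 < Real.cos φ := Real.cos_arctan_pos _
  rw [Real.tan_eq_sin_div_cos, div_eq_div_iff h.ne' hc.ne'] at h1
  rw [rad_r, Real.sin_add]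
  linear_combination Real.cos s * h1

lemma ang_phi {p : ℝ × ℝ} (h : 0 < ang f g p) (s : ℝ) :
    ang (rF f g s) (rG f g s) p * Real.cos (Real.arctan (rad f g p / ang f g p)) =
      ang f g p * Real.cos (Real.arctan (rad f g p / ang f g p) + s) := by
  set φ := Real.arctan (rad f g p / ang f g p) with hφ
  have h1 : rad f g p / ang f g p = Real.tan φ := by rw [hφ, Real.tan_arctan]
  have hc : 0 < Real.cos φ := Real.cos_arctan_pos _
  rw [Real.tan_eq_sin_div_cos, div_eq_div_iff h.ne' hc.ne'] at h1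
  rw [ang_r, Real.cos_add]
  linear_combination -Real.sin s * h1

lemma phi_mem (hmM : ∀ p ∈ A, m ≤ Real.arctan (rad f g p / ang f g p) ∧
      Real.arctan (rad f g p / ang f g p) ≤ M) (hMa : M - a ≤ K) (hbm : b - m ≤ K) {s : ℝ} (hs : s ∈ Icc (-b) (-a)) {p : ℝ × ℝ}
    (hp : p ∈ A) : Real.arctan (rad f g p / ang f g p) + s ∈ Icc (-K) K := by
  have h := hmM p hp
  constructor
  · linarith [hs.1, h.1]
  · linarith [hs.2, h.2]

lemma ang_pos_r (hpos : ∀ p ∈ A, 0 < ang f g p)
    (hmM : ∀ p ∈ A, m ≤ Real.arctan (rad f g p / ang f g p) ∧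
      Real.arctan (rad f g p / ang f g p) ≤ M) (hMa : M - a ≤ K) (hbm : b - m ≤ K) (hW : K < Real.pi / 2) {s : ℝ}
    (hs : s ∈ Icc (-b) (-a)) : ∀ p ∈ A, 0 < ang (rF f g s) (rG f g s) p := by
  intro p hp
  have h1 := ang_phi (hpos p hp) s
  have h2 := phi_mem hmM hMa hbm hs hp
  have hc : 0 < Real.cos (Real.arctan (rad f g p / ang f g p)) := Real.cos_arctan_pos _
  have h3 : 0 < Real.cos (Real.arctan (rad f g p / ang f g p) + s) :=
    Real.cos_pos_of_mem_Ioo ⟨by linarith [h2.1], by linarith [h2.2]⟩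
  have h4 := mul_pos (hpos p hp) h3
  rw [← h1] at h4
  exact pos_of_mul_pos_left h4 hc.le

lemma sc_r (hpos : ∀ p ∈ A, 0 < ang f g p)
    (hmM : ∀ p ∈ A, m ≤ Real.arctan (rad f g p / ang f g p) ∧
      Real.arctan (rad f g p / ang f g p) ≤ M) (hMa : M - a ≤ K) (hbm : b - m ≤ K) (hW : K < Real.pi / 2) {s : ℝ}
    (hs : s ∈ Icc (-b) (-a)) {t x : ℝ} (hx : x ∈ reg A t) :
    sc (rF f g s) (rG f g s) t x = Real.tan (Real.arctan (sc f g t x) + s) := by
  have hx' : pt t x ∈ A := hx
  have h1 := ang_phi (hpos _ hx') s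
  have h2 := rad_phi (hpos _ hx') s
  have hc : 0 < Real.cos (Real.arctan (rad f g (pt t x) / ang f g (pt t x))) :=
    Real.cos_arctan_pos _
  unfold sc
  rw [Real.tan_eq_sin_div_cos, ← mul_div_mul_right _ _ hc.ne', h1, h2,
    mul_div_mul_left _ _ (hpos _ hx').ne']

lemma tan_lower {W u v : ℝ} (hW : W < Real.pi / 2) (hu : u ∈ Icc (-W) W) (hv : v ∈ Icc (-W) W)
    (huv : u ≤ v) : v - u ≤ Real.tan v - Real.tan u := by
  have hpos : ∀ x ∈ Icc (-W) W, 0 < Real.cos x := fun x hx =>
    Real.cos_pos_of_mem_Ioo ⟨by linarith [hx.1], by linarith [hx.2]⟩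
  have h := (convex_Icc (-W) W).mul_sub_le_image_sub_of_le_deriv (f := Real.tan) (C := 1)
    (fun x hx => (Real.hasDerivAt_tan (hpos x hx).ne').continuousAt.continuousWithinAt)
    (fun x hx => (Real.hasDerivAt_tan
      (hpos x (interior_subset hx)).ne').differentiableAt.differentiableWithinAt)
    (fun x hx => by
      rw [Real.deriv_tan, le_div_iff₀ (pow_pos (hpos x (interior_subset hx)) 2), one_mul]
      have := Real.sin_sq_add_cos_sq x
      nlinarith [sq_nonneg (Real.sin x)]) u hu v hv huv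
  linarith

lemma tan_upper {W u v : ℝ} (hW : W < Real.pi / 2) (hu : u ∈ Icc (-W) W) (hv : v ∈ Icc (-W) W) :
    |Real.tan u - Real.tan v| ≤ (Real.cos W ^ 2)⁻¹ * |u - v| := by
  have hpos : ∀ x ∈ Icc (-W) W, 0 < Real.cos x := fun x hx =>
    Real.cos_pos_of_mem_Ioo ⟨by linarith [hx.1], by linarith [hx.2]⟩
  have hW0 : 0 ≤ W := by linarith [hu.1, hu.2]
  have h := (convex_Icc (-W) W).norm_image_sub_le_of_norm_deriv_le (f := Real.tan)
    (C := (Real.cos W ^ 2)⁻¹) (x := v) (y := u)
    (fun x hx => (Real.hasDerivAt_tan (hpos x hx).ne').differentiableAt)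
    (fun x hx => by
      rw [Real.deriv_tan, Real.norm_eq_abs, one_div, abs_inv, abs_pow, abs_of_pos (hpos x hx)]
      have h1 : Real.cos W ≤ Real.cos x := by
        rw [← Real.cos_abs x]
        exact Real.cos_le_cos_of_nonneg_of_le_pi (abs_nonneg x) (by linarith [Real.pi_pos])
          (abs_le.2 hx)
      have h2 : 0 < Real.cos W := hpos W ⟨by linarith, le_rfl⟩
      gcongr) hv hu
  rwa [Real.norm_eq_abs, Real.norm_eq_abs] at h

lemma semiRot_r (hA : ∀ t, (ray A t).OrdConnected) (hpos : ∀ p ∈ A, 0 < ang f g p)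
    (hmM : ∀ p ∈ A, m ≤ Real.arctan (rad f g p / ang f g p) ∧
      Real.arctan (rad f g p / ang f g p) ≤ M) (hMa : M - a ≤ K) (hbm : b - m ≤ K) (hW : K < Real.pi / 2) :
    SemiRot (2 * Real.pi) (reg A) (Icc (-b) (-a)) (fun s => sc (rF f g s) (rG f g s))
      (fun _ => 1) (fun t x => Real.arctan (sc f g t x)) 1 ((Real.cos K ^ 2)⁻¹) where
  cont := fun s hs => sc_cont (ang_pos_r hpos hmM hMa hbm hW hs) _
  lip := fun s hs => locLip (reg_ord hA) (ang_pos_r hpos hmM hMa hbm hW hs) _
  wcont := continuousOn_const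
  wnn := fun t _ => zero_le_one
  wpos := fun a b _ hab _ => ⟨(a + b) / 2, ⟨by linarith, by linarith⟩, zero_lt_one⟩
  hcont := Real.continuous_arctan.comp_continuousOn (sc_cont hpos _)
  c1 := zero_lt_one
  c2 := by positivity
  mono := by
    intro s hs s' hs' hss t _ x hx
    rw [sc_r hpos hmM hMa hbm hW hs hx, sc_r hpos hmM hMa hbm hW hs' hx]
    have h := tan_lower hW (phi_mem hmM hMa hbm hs (p := pt t x) hx) (phi_mem hmM hMa hbm hs' (p := pt t x) hx)
      (by linarith)
    have e : Real.arctan (sc f g t x) = Real.arctan (rad f g (pt t x) / ang f g (pt t x)) := rfl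
    rw [← e] at h
    linarith
  var := by
    intro s hs t _ x hx y hy
    rw [sc_r hpos hmM hMa hbm hW hs hx, sc_r hpos hmM hMa hbm hW hs hy]
    have h := tan_upper hW (phi_mem hmM hMa hbm hs (p := pt t x) hx) (phi_mem hmM hMa hbm hs (p := pt t y) hy)
    have e : ∀ z, Real.arctan (sc f g t z) =
      Real.arctan (rad f g (pt t z) / ang f g (pt t z)) := fun z => rfl
    rw [← e, ← e] at h
    rw [mul_one]
    refine h.trans_eq ?_
    congr 2
    ring

/-- no closed orbits if the radial component has a sign -/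
lemma no_orbits_r {X : ℝ × ℝ → ℝ × ℝ} {ε : ℝ}
    (hs : ∀ p ∈ A, 0 < ε * (p.1 * (X p).1 + p.2 * (X p).2)) : closedOrbitsIn X A = ∅ := by
  by_contra hne
  obtain ⟨C, ⟨γ, T, hT, hγ, hper, -, rfl⟩, hsub⟩ := Set.nonempty_iff_ne_empty.2 hne
  have hd : ∀ t, HasDerivAt (fun t => ε * ((γ t).1 ^ 2 + (γ t).2 ^ 2))
      (2 * (ε * ((γ t).1 * (X (γ t)).1 + (γ t).2 * (X (γ t)).2))) t := by
    intro t
    have h1 : HasDerivAt (fun t => (γ t).1) (X (γ t)).1 t := (hγ t).fst
    have h2 : HasDerivAt (fun t => (γ t).2) (X (γ t)).2 t := (hγ t).snd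
    refine (((h1.pow 2).add (h2.pow 2)).const_mul ε).congr_deriv ?_
    push_cast
    ring
  have hm : StrictMono fun t => ε * ((γ t).1 ^ 2 + (γ t).2 ^ 2) :=
    strictMono_of_deriv_pos fun t => by
      rw [(hd t).deriv]
      have := hs (γ t) (hsub ⟨t, rfl⟩)
      linarith
  have h1 := hm hT
  have h2 := hper 0
  rw [zero_add] at h2
  simp only [h2, lt_self_iff_false] at h1

theorem rot_empty (hpos : ∀ p ∈ A, 0 < ang f g p)
    (hmM : ∀ p ∈ A, m ≤ Real.arctan (rad f g p / ang f g p) ∧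
      Real.arctan (rad f g p / ang f g p) ≤ M) {α : ℝ} (h1 : M - Real.pi < α)
    (h2 : α < m + Real.pi) (hα : α ∉ Icc m M) : closedOrbitsIn (rotF f g α) A = ∅ := by
  have key : ∀ p, p.1 * (rotF f g α p).1 + p.2 * (rotF f g α p).2 =
      rad (rF f g (-α)) (rG f g (-α)) p := by
    intro p
    unfold rad rotF
    rw [ev_rF, ev_rG, Real.cos_neg, Real.sin_neg]
    ring
  rw [mem_Icc, not_and_or, not_le, not_le] at hα
  rcases hα with hα | hα
  · refine no_orbits_r (ε := 1) fun p hp => ?_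
    rw [key, one_mul]
    have h3 := rad_phi (hpos p hp) (-α)
    have hc : 0 < Real.cos (Real.arctan (rad f g p / ang f g p)) := Real.cos_arctan_pos _
    have h4 : 0 < Real.sin (Real.arctan (rad f g p / ang f g p) + -α) :=
      Real.sin_pos_of_pos_of_lt_pi (by linarith [(hmM p hp).1]) (by linarith [(hmM p hp).2])
    have h5 := mul_pos (hpos p hp) h4
    rw [← h3] at h5
    exact pos_of_mul_pos_left h5 hc.le
  · refine no_orbits_r (ε := -1) fun p hp => ?_
    rw [key]
    have h3 := rad_phi (hpos p hp) (-α)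
    have hc : 0 < Real.cos (Real.arctan (rad f g p / ang f g p)) := Real.cos_arctan_pos _
    have h4 : Real.sin (Real.arctan (rad f g p / ang f g p) + -α) < 0 :=
      Real.sin_neg_of_neg_of_neg_pi_lt (by linarith [(hmM p hp).2]) (by linarith [(hmM p hp).1])
    have h5 := mul_neg_of_pos_of_neg (hpos p hp) h4
    rw [← h3] at h5
    have h6 : rad (rF f g (-α)) (rG f g (-α)) p < 0 := by
      by_contra hcon
      push Not at hcon
      exact absurd h5 (not_lt.2 (mul_nonneg hcon hc.le))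
    linarith

/-- **The mean number of closed orbits of the rotated fields.** -/
theorem rot_mean {n : ℕ} (hf : f.totalDegree ≤ n) (hg : g.totalDegree ≤ n)
    (hA : ∀ t, (ray A t).OrdConnected) (hpos : ∀ p ∈ A, 0 < ang f g p)
    (hmM : ∀ p ∈ A, m ≤ Real.arctan (rad f g p / ang f g p) ∧
      Real.arctan (rad f g p / ang f g p) ≤ M) (hMa : M - a ≤ K) (hbm : b - m ≤ K) (hW : K < Real.pi / 2) :
    ∃ G : ℝ → ℝ≥0∞, Measurable G ∧
      (∀ α ∈ Icc a b, ((closedOrbitsIn (rotF f g α) A).encard : ℝ≥0∞) ≤ G α) ∧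
      2 * ∫⁻ α, G α ≤ ENNReal.ofReal ((Real.cos K ^ 2)⁻¹) *
        (n * ENNReal.ofReal (M - m)) ∧
      (ev f 0 = 0 → ev g 0 = 0 → 2 * ∫⁻ α, G α ≤ ENNReal.ofReal ((Real.cos K ^ 2)⁻¹) *
        ((n - 1 : ℕ) * ENNReal.ofReal (M - m))) := by
  have hpi := Real.two_pi_pos
  have hA' := reg_ord hA
  obtain ⟨G, hGm, hG, hGi⟩ := semi_mean hpi (semiRot_r hA hpos hmM hMa hbm hW)
  have hint : ∫⁻ α, G (-α) = ∫⁻ α, G α := lintegral_neg_eq_self G
  have e1 : ∫ t in (0:ℝ)..(2 * Real.pi), (1:ℝ) = 2 * Real.pi := by simp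
  have e2 : ∫⁻ t in Icc 0 (2 * Real.pi), ENNReal.ofReal 1 *
      eVariationOn (fun x => Real.arctan (sc f g t x)) (reg A t) =
      ∫⁻ t in Icc 0 (2 * Real.pi), eVariationOn (fun x => Real.arctan (sc f g t x)) (reg A t) := by
    simp
  rw [e1, one_mul, e2] at hGi
  have arith : ∀ B : ℝ≥0∞, (∫⁻ t in Icc 0 (2 * Real.pi),
      eVariationOn (fun x => Real.arctan (sc f g t x)) (reg A t)) ≤ ENNReal.ofReal Real.pi * B →
      2 * ∫⁻ α, G α ≤ ENNReal.ofReal ((Real.cos K ^ 2)⁻¹) * B := by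
    intro B hB
    have h2 := hGi.trans (mul_le_mul_right hB _)
    have h3 := mul_le_mul_right h2 (ENNReal.ofReal (1 / Real.pi))
    have c1 : ENNReal.ofReal (1 / Real.pi) * (ENNReal.ofReal (2 * Real.pi) * ∫⁻ α, G α) =
        2 * ∫⁻ α, G α := by
      rw [← mul_assoc, ← ENNReal.ofReal_mul (by positivity)]
      rw [show 1 / Real.pi * (2 * Real.pi) = 2 by field_simp]
      simp
    have c2 : ENNReal.ofReal (1 / Real.pi) * (ENNReal.ofReal ((Real.cos K ^ 2)⁻¹) *
        (ENNReal.ofReal Real.pi * B)) = ENNReal.ofReal ((Real.cos K ^ 2)⁻¹) * B := by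
      calc _ = (ENNReal.ofReal (1 / Real.pi) * ENNReal.ofReal Real.pi) *
            (ENNReal.ofReal ((Real.cos K ^ 2)⁻¹) * B) := by ring
        _ = _ := by
          rw [← ENNReal.ofReal_mul (by positivity), one_div, inv_mul_cancel₀ Real.pi_ne_zero]
          simp
    rw [c1, c2] at h3
    exact h3
  refine ⟨fun α => G (-α), hGm.comp measurable_neg, fun α hα => ?_, ?_, fun hf0 hg0 => ?_⟩
  · have hs : -α ∈ Icc (-b) (-a) := ⟨by linarith [hα.2], by linarith [hα.1]⟩
    refine le_trans ?_ (hG (-α) hs)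
    refine ENat.toENNReal_le.2 ?_
    have hfe : (fun p => field (rF f g (-α)) (rG f g (-α)) 0 p) = rotF f g α := by
      funext p
      rw [rot_field, neg_neg]
    have hsub : closedOrbitsIn (rotF f g α) A ⊆
        (fun h : Icc 0 (2 * Real.pi) → ℝ => range fun t : Icc 0 (2 * Real.pi) =>
          ((Real.exp (h t) * Real.cos t, Real.exp (h t) * Real.sin t) : ℝ × ℝ)) ''
          closedIn (2 * Real.pi) (reg A) (sc (rF f g (-α)) (rG f g (-α))) 0 := by
      intro C hC
      rw [← hfe] at hC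
      obtain ⟨ρ, hρ, hCρ⟩ := orbit_sc hA' (ang_pos_r hpos hmM hMa hbm hW hs) hC
      refine ⟨(Icc 0 (2 * Real.pi)).domRestrict ρ, ⟨ρ, hρ, rfl⟩, ?_⟩
      rw [hCρ]
      ext p
      constructor
      · rintro ⟨t, rfl⟩
        exact ⟨t, t.2, rfl⟩
      · rintro ⟨t, ht, rfl⟩
        exact ⟨⟨t, ht⟩, rfl⟩
    exact (encard_le_encard hsub).trans (encard_image_le _ _)
  · simp only [hint]
    exact arith _ (int_pair (pair_one' hf hg hA hpos hmM))
  · simp only [hint]
    exact arith _ (int_pair (pair_two' hf hg hf0 hg0 hA hpos hmM))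

end Pool.Agent.J4H90.LI
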