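import Mathlib
import Pool.Agent.J4H90.LI.Rot

/-! The mean number of the closed orbits of the rotated fields: sharpness. -/

open Set MeasureTheory Topology Filter
open scoped ENNReal NNReal

namespace Pool.Agent.J4H90.LI

open Pool.Agent.TH525.PU hiding pt ang field
open Pool.Agent.TH525.AG

variable {f g : MvPolynomial (Fin 2) ℝ} {A : Set (ℝ × ℝ)}

lemma circle_rot {r τ c σ : ℝ} (hr : 0 < r) (hc : 0 < c) (hcs : σ ^ 2 + c ^ 2 = 1)
    (hτ : τ * c = σ) {X : ℝ × ℝ → ℝ × ℝ}
    (hX : ∀ t : ℝ, X (r * Real.cos t, r * Real.sin t) =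
      (c * (-(r * Real.sin t) + r * Real.cos t * τ) - σ * (r * Real.cos t + r * Real.sin t * τ),
        σ * (-(r * Real.sin t) + r * Real.cos t * τ) + c * (r * Real.cos t + r * Real.sin t * τ)))
    (hA : ∀ t : ℝ, ((r * Real.cos t, r * Real.sin t) : ℝ × ℝ) ∈ A) :
    (range fun t : ℝ => ((r * Real.cos t, r * Real.sin t) : ℝ × ℝ)) ∈ closedOrbitsIn X A := by
  refine ⟨⟨fun t => (r * Real.cos (c⁻¹ * t), r * Real.sin (c⁻¹ * t)), 2 * Real.pi * c,
    mul_pos Real.two_pi_pos hc, ?_, ?_, ?_, ?_⟩, ?_⟩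
  · intro t
    rw [hX]
    have h0 : HasDerivAt (fun t => c⁻¹ * t) c⁻¹ t := by
      simpa using (hasDerivAt_id t).const_mul c⁻¹
    have h1 := h0.cos.const_mul r
    have h2 := h0.sin.const_mul r
    refine (h1.prodMk h2).congr_deriv ?_
    have hcc : c * c⁻¹ = 1 := mul_inv_cancel₀ hc.ne'
    have e : c⁻¹ = c + σ * τ := by
      have : c * (c + σ * τ) = 1 := by
        calc c * (c + σ * τ) = σ * (τ * c) + c ^ 2 := by ring
          _ = 1 := by rw [hτ, ← pow_two, hcs]
      calc c⁻¹ = c⁻¹ * (c * (c + σ * τ)) := by rw [this, mul_one]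
        _ = (c * c⁻¹) * (c + σ * τ) := by ring
        _ = _ := by rw [hcc, one_mul]
    set C := Real.cos (c⁻¹ * t)
    set S := Real.sin (c⁻¹ * t)
    ext
    · simp only
      rw [e]
      linear_combination (-(r * C)) * hτ
    · simp only
      rw [e]
      linear_combination (-(r * S)) * hτ
  · intro t
    have h1 : c⁻¹ * (t + 2 * Real.pi * c) = c⁻¹ * t + 2 * Real.pi := by
      field_simp
    simp only [h1, Real.cos_add_two_pi, Real.sin_add_two_pi]
  · refine ⟨0, Real.pi * c, ?_⟩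
    intro h
    have := congrArg Prod.fst h
    simp only at this
    have h1 : c⁻¹ * (Real.pi * c) = Real.pi := by field_simp
    rw [h1, mul_zero, Real.cos_zero, Real.cos_pi] at this
    linarith
  · ext p
    constructor
    · rintro ⟨t, rfl⟩
      refine ⟨c * t, ?_⟩
      have h1 : c⁻¹ * (c * t) = t := by field_simp
      simp only [h1]
    · rintro ⟨t, rfl⟩
      exact ⟨c⁻¹ * t, rfl⟩
  · rintro _ ⟨t, rfl⟩
    exact hA t

theorem rot_sharp {k : ℕ} (hk : 1 ≤ k) {R δ : ℝ} (hR : 0 < R) (hδ : 0 < δ)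
    (hδ' : δ < Real.pi / 2) :
    ∃ f g : MvPolynomial (Fin 2) ℝ, f.totalDegree ≤ 2 * k + 1 ∧ g.totalDegree ≤ 2 * k + 1 ∧
      ev f 0 = 0 ∧ ev g 0 = 0 ∧
      (∀ p ∈ pdisc R, 0 < ang f g p ∧ -δ ≤ Real.arctan (rad f g p / ang f g p) ∧
        Real.arctan (rad f g p / ang f g p) ≤ δ) ∧
      ∀ α ∈ Ioo (-δ) δ, (k : ℕ∞) ≤ (closedOrbitsIn (rotF f g α) (pdisc R)).encard := by
  have hk0 : k ≠ 0 := by omega
  have htδ : 0 < Real.tan δ := Real.tan_pos_of_pos_of_lt_pi_div_two hδ hδ'
  set H : MvPolynomial (Fin 2) ℝ := MvPolynomial.C (Real.tan δ) * chebH k R with hH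
  have hev : ∀ p, ev H p = Real.tan δ * ev (chebH k R) p := by
    intro p; simp [ev, hH]
  have hHdeg : H.totalDegree ≤ 2 * k := by
    refine (MvPolynomial.totalDegree_mul _ _).trans ?_
    rw [MvPolynomial.totalDegree_C, zero_add]
    exact chebH_deg k R
  have ef : ∀ p, ev (rigidX H 0) p = - p.2 + p.1 * ev H p := by
    intro p; unfold ev; rw [eval_rigidX, add_zero]
  have eg : ∀ p, ev (rigidY H 0) p = p.1 + p.2 * ev H p := by
    intro p; unfold ev; rw [eval_rigidY, add_zero]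
  have ea : ∀ p, ang (rigidX H 0) (rigidY H 0) p = p.1 ^ 2 + p.2 ^ 2 := by
    intro p; unfold ang; rw [ef, eg]; ring
  have er : ∀ p, rad (rigidX H 0) (rigidY H 0) p = (p.1 ^ 2 + p.2 ^ 2) * ev H p := by
    intro p; unfold rad; rw [ef, eg]; ring
  have hdeg : (H + MvPolynomial.C 0 : MvPolynomial (Fin 2) ℝ).totalDegree ≤ 2 * k := by
    simpa using hHdeg
  refine ⟨rigidX H 0, rigidY H 0, ?_, ?_, ?_, ?_, ?_, ?_⟩
  · unfold rigidX
    refine (MvPolynomial.totalDegree_add _ _).trans (max_le ?_ ?_)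
    · rw [MvPolynomial.totalDegree_neg, MvPolynomial.totalDegree_X]; omega
    · refine (MvPolynomial.totalDegree_mul _ _).trans ?_
      rw [MvPolynomial.totalDegree_X]
      omega
  · unfold rigidY
    refine (MvPolynomial.totalDegree_add _ _).trans (max_le ?_ ?_)
    · rw [MvPolynomial.totalDegree_X]; omega
    · refine (MvPolynomial.totalDegree_mul _ _).trans ?_
      rw [MvPolynomial.totalDegree_X]
      omega
  · rw [ef]; simp
  · rw [eg]; simp
  · intro p hp
    rw [ea, er, mul_div_cancel_left₀ _ hp.1.ne', hev]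
    refine ⟨hp.1, ?_⟩
    unfold ev
    rw [chebH_eval]
    have h1 : p.1 ^ 2 + p.2 ^ 2 ≤ R ^ 2 := hp.2
    have h2 := Polynomial.Chebyshev.eval_T_real_mem_Icc (x := 2 / R ^ 2 * (p.1 ^ 2 + p.2 ^ 2) - 1)
      k ⟨by
        have : 0 ≤ 2 / R ^ 2 * (p.1 ^ 2 + p.2 ^ 2) := by positivity
        linarith, by
        have : 2 / R ^ 2 * (p.1 ^ 2 + p.2 ^ 2) ≤ 2 := by
          rw [div_mul_eq_mul_div, div_le_iff₀ (by positivity)]
          linarith
        linarith⟩
    have e1 : Real.arctan (Real.tan δ) = δ := Real.arctan_tan (by linarith) hδ'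
    constructor
    · rw [← e1, ← Real.arctan_neg]
      refine Real.arctan_strictMono.monotone ?_
      rw [e1]
      nlinarith [h2.1]
    · rw [← e1]
      refine Real.arctan_strictMono.monotone ?_
      rw [e1]
      nlinarith [h2.2]
  · intro α hα
    have hcα : 0 < Real.cos α :=
      Real.cos_pos_of_mem_Ioo ⟨by linarith [hα.1], by linarith [hα.2]⟩
    have t1 : Real.tan α < Real.tan δ :=
      Real.tan_lt_tan_of_lt_of_lt_pi_div_two (by linarith [hα.1]) hδ' hα.2
    have t2 : -Real.tan δ < Real.tan α := by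
      rw [← Real.tan_neg]
      exact Real.tan_lt_tan_of_lt_of_lt_pi_div_two (by linarith) (by linarith [hα.2]) hα.1
    have hs' : Real.tan α / Real.tan δ ∈ Ioo (-1:ℝ) 1 := by
      constructor
      · rw [lt_div_iff₀ htδ]; linarith
      · rw [div_lt_iff₀ htδ]; linarith
    set y : ℝ := Real.tan α / Real.tan δ with hy
    set r : ℕ → ℝ := fun j => R * Real.sqrt ((1 + TH525.PU.pt k y j) / 2) with hr
    have hr0 : ∀ j < k, 0 < r j := by
      intro j hj
      have := (pt_Ioo hs' hj).1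
      exact mul_pos hR (Real.sqrt_pos.2 (by linarith))
    have hrR : ∀ j < k, r j ≤ R := by
      intro j hj
      have h1 := (pt_Ioo hs' hj).2
      have h2 : Real.sqrt ((1 + TH525.PU.pt k y j) / 2) ≤ 1 := by
        exact Real.sqrt_le_iff.2 ⟨zero_le_one, by linarith⟩
      calc r j ≤ R * 1 := mul_le_mul_of_nonneg_left h2 hR.le
        _ = R := mul_one R
    have hrsq : ∀ j < k, 2 / R ^ 2 * r j ^ 2 - 1 = TH525.PU.pt k y j := by
      intro j hj
      have := (pt_Ioo hs' hj).1
      simp only [hr]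
      rw [mul_pow, Real.sq_sqrt (by linarith)]
      field_simp
      ring
    have hcirc : ∀ (ρ t : ℝ), (ρ * Real.cos t) ^ 2 + (ρ * Real.sin t) ^ 2 = ρ ^ 2 := by
      intro ρ t
      have := Real.sin_sq_add_cos_sq t
      calc _ = ρ ^ 2 * (Real.sin t ^ 2 + Real.cos t ^ 2) := by ring
        _ = _ := by rw [this, mul_one]
    refine encard_of_inj (fun j => range fun t : ℝ =>
      ((r j * Real.cos t, r j * Real.sin t) : ℝ × ℝ)) ?_ ?_
    · intro j hj
      refine circle_rot (τ := Real.tan α) (c := Real.cos α) (σ := Real.sin α) (hr0 j hj) hcα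
        (Real.sin_sq_add_cos_sq α) (Real.tan_mul_cos hcα.ne') (fun t => ?_) (fun t => ?_)
      · have h1 : ev H (r j * Real.cos t, r j * Real.sin t) = Real.tan α := by
          rw [hev]
          unfold ev
          rw [chebH_eval]
          simp only
          rw [hcirc, hrsq j hj, pt_eval hk0 hs', hy]
          field_simp
        unfold rotF
        rw [ef, eg, h1]
      · refine ⟨?_, ?_⟩
        · simp only
          rw [hcirc]
          exact pow_pos (hr0 j hj) 2
        · simp only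
          rw [hcirc]
          exact pow_le_pow_left₀ (hr0 j hj).le (hrR j hj) 2
    · intro j hj l hl h
      have h1 : ((r j * Real.cos 0, r j * Real.sin 0) : ℝ × ℝ) ∈
          range fun t : ℝ => ((r l * Real.cos t, r l * Real.sin t) : ℝ × ℝ) := by
        rw [← h]; exact ⟨0, rfl⟩
      obtain ⟨t, ht⟩ := h1
      have h2 := congrArg (fun p : ℝ × ℝ => p.1 ^ 2 + p.2 ^ 2) ht
      simp only [hcirc] at h2
      apply pt_inj hs' hj hl
      rw [← hrsq j hj, ← hrsq l hl, h2]

end Pool.Agent.J4H90.LI
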